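import Pool.Agent.W367.SN.Sub

set_option autoImplicit false

namespace Pool.Agent.W367.SN
open CategoryTheory

/-- the counterexample group -/
abbrev G := Wr (Wr A)

def xE : G := ⟨sE, tE, false⟩

theorem xE_pow : xE ^ 4 = 1 := by
  rw [xE, pow_ff, sE_pow, tE_pow]
  rfl

def SA : Set A := {X0, X1, X2, X3}

theorem mem_SA {u : A} (h : u ∈ SA) : u ∈ ([X0, X1, X2, X3] : List A) := by
  simpa [SA] using h

theorem pow_X0 : ∀ u ∈ ([X0, X1, X2, X3] : List A), u ^ 1 = X0 ∨ u ^ 2 = X0 := by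
  decide +kernel

set_option maxRecDepth 100000 in
theorem det_dec : ∀ h : A, X0 * (X0 * (h * X0 * h⁻¹)) ^ 4 = (X0 * (h * X0 * h⁻¹)) ^ 4 * X0 →
    h ∈ N := by
  decide +kernel

theorem det_A : Det SA N := by
  intro u hu v hv h hc
  obtain ⟨m, hm⟩ : ∃ m, u ^ m = X0 := by
    rcases pow_X0 u (mem_SA hu) with h | h
    · exact ⟨1, h⟩
    · exact ⟨2, h⟩
  obtain ⟨m', hm'⟩ : ∃ m, v ^ m = X0 := by
    rcases pow_X0 v (mem_SA hv) with h | h
    · exact ⟨1, h⟩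
    · exact ⟨2, h⟩
  have h1 := (hc m m').pow_left m
  rw [conj_pow, hm, hm'] at h1
  exact det_dec h h1.eq

theorem q_pow : ∀ q : Q, q ^ 4 = 1 := by decide +kernel

theorem exp4_Q : Exp4 (Set.univ : Set Q) := fun _ _ _ _ _ _ _ => q_pow _

def rh : A →* Q := SemidirectProduct.rightHom

theorem ker3_A : Ker3 rh := by
  have : ∀ r : A, r.right = 1 → r ^ 3 = 1 := by decide +kernel
  exact this

def fG : G →* Wr (Wr Q) := wmap (wmap rh)

theorem xE_mem : xE ∈ wset (wset SA) :=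
  ⟨rfl, ⟨rfl, by simp [SA, xE, sE], by simp [SA, xE, sE]⟩,
    ⟨rfl, by simp [SA, xE, tE], by simp [SA, xE, tE]⟩⟩

theorem fxE_mem : fG xE ∈ wset (wset (Set.univ : Set Q)) :=
  ⟨rfl, ⟨rfl, trivial, trivial⟩, ⟨rfl, trivial, trivial⟩⟩

abbrev H : Subgroup G := wsub N0

/-- the set generating the subnormalizer -/
def SG : Set G := {g : G | ∃ n : ℕ, ∃ c : ℕ → Subgroup G,
      c 0 = Subgroup.zpowers xE ∧ c n = Subgroup.zpowers xE ⊔ Subgroup.zpowers g ∧
      ∀ i < n, c i ≤ c (i + 1) ∧ ((c i).subgroupOf (c (i + 1))).Normal}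

theorem SG_sub (g : G) (hg : g ∈ SG) : g ∈ H := by
  obtain ⟨n, c, h0, hn, hc⟩ := hg
  have h1 := comm_of_chain fG (ker3_wr (ker3_wr ker3_A)) xE xE_pow n c h0 hc n le_rfl
  rw [hn] at h1
  apply det_wr (det_wr det_A) xE xE_mem xE xE_mem g
  intro m m'
  apply h1.2
  · have hx : xE ∈ Subgroup.zpowers xE ⊔ Subgroup.zpowers g :=
      (le_sup_left : Subgroup.zpowers xE ≤ _) (Subgroup.mem_zpowers _)
    have hg : g ∈ Subgroup.zpowers xE ⊔ Subgroup.zpowers g :=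
      (le_sup_right : Subgroup.zpowers g ≤ _) (Subgroup.mem_zpowers _)
    exact Subgroup.pow_mem _ (Subgroup.mul_mem _ (Subgroup.pow_mem _ hx _)
      (Subgroup.pow_mem _ (Subgroup.mul_mem _ (Subgroup.mul_mem _ hg hx)
        (Subgroup.inv_mem _ hg)) _)) _
  · rw [map_pow, map_mul, map_pow, map_pow, map_mul, map_mul, map_inv]
    exact exp4_wr (exp4_wr exp4_Q) _ fxE_mem _ fxE_mem _ m m'

def ZA : Set A := {g | g.left.x = 0 ∧ g.left.y = 0 ∧ g.right = 1}
def PA : Set A := {g | g.left = 1}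

theorem dec_A : Dec SA ZA PA N := by
  constructor
  · intro z hz u hu
    have key : ∀ u ∈ ([X0, X1, X2, X3] : List A), ∀ z : A,
        (z.left.x = 0 ∧ z.left.y = 0 ∧ z.right = 1) → u * z = z * u := by decide +kernel
    exact key u (mem_SA hu) z hz
  · intro h hh
    refine ⟨SemidirectProduct.inl h.left, ⟨hh.1, hh.2, rfl⟩, SemidirectProduct.inr h.right, rfl, ?_⟩
    exact (SemidirectProduct.inl_left_mul_inr_right h).symm

theorem comm_mem (z : G) (hz : Commute xE z) : z ∈ SG := by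
  refine ⟨1, fun i => if i = 0 then Subgroup.zpowers xE else
    Subgroup.zpowers xE ⊔ Subgroup.zpowers z, rfl, by simp, ?_⟩
  intro i hi
  obtain rfl : i = 0 := by omega
  have e1 : (fun i : ℕ => if i = 0 then Subgroup.zpowers xE else
    Subgroup.zpowers xE ⊔ Subgroup.zpowers z) (0 + 1) =
      Subgroup.zpowers xE ⊔ Subgroup.zpowers z := by simp
  have e0 : (fun i : ℕ => if i = 0 then Subgroup.zpowers xE else
    Subgroup.zpowers xE ⊔ Subgroup.zpowers z) 0 = Subgroup.zpowers xE := rfl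
  rw [e1, e0]
  refine ⟨le_sup_left, ⟨fun u hu g => ?_⟩⟩
  rw [Subgroup.mem_subgroupOf] at hu ⊢
  have hle : Subgroup.zpowers xE ⊔ Subgroup.zpowers z ≤ Subgroup.centralizer {xE} := by
    rw [sup_le_iff, Subgroup.zpowers_le, Subgroup.zpowers_le, Subgroup.mem_centralizer_iff,
      Subgroup.mem_centralizer_iff]
    constructor
    · rintro _ rfl; rfl
    · rintro _ rfl; exact hz.eq
  have hg := hle g.2
  rw [Subgroup.mem_centralizer_iff] at hg
  have hg1 : Commute xE (g : G) := hg xE rfl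
  obtain ⟨k, hk⟩ := hu
  have hk' : xE ^ k = (u : G) := hk
  have hg2 : Commute (u : G) (g : G) := by rw [← hk']; exact hg1.zpow_left k
  have : ((g * u * g⁻¹ : (Subgroup.zpowers xE ⊔ Subgroup.zpowers z : Subgroup G)) : G) = u := by
    change (g : G) * u * (g : G)⁻¹ = u
    rw [← hg2.eq]; group
  rw [this]
  exact ⟨k, hk⟩

def gG : Wr (Wr Q) →* G := wmap (wmap SemidirectProduct.inr)

theorem isP : IsPGroup 2 gG.range := by
  have h1 : IsPGroup 2 (Wr (Wr Q)) := by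
    apply IsPGroup.of_card (n := 15)
    rw [Nat.card_eq_fintype_card, Wr.card_eq, Wr.card_eq]
    rfl
  exact h1.of_surjective gG.rangeRestrict gG.rangeRestrict_surjective

theorem wallP_range (p : G) (hp : p ∈ wall (wall PA)) : p ∈ gG.range := by
  obtain ⟨⟨a, b, e1⟩, ⟨c, d, e2⟩, e⟩ := p
  obtain ⟨⟨ha, hb⟩, ⟨hc, hd⟩⟩ := hp
  refine ⟨⟨⟨a.right, b.right, e1⟩, ⟨c.right, d.right, e2⟩, e⟩, ?_⟩
  have key : ∀ a : A, a ∈ PA → SemidirectProduct.inr a.right = a := by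
    intro a ha
    apply SemidirectProduct.ext
    · exact (show a.left = 1 from ha).symm
    · rfl
  change (⟨⟨SemidirectProduct.inr a.right, SemidirectProduct.inr b.right, e1⟩,
    ⟨SemidirectProduct.inr c.right, SemidirectProduct.inr d.right, e2⟩, e⟩ : G) = _
  rw [key a ha, key b hb, key c hc, key d hd]

theorem p_mem (p : G) (hp : p ∈ wall (wall PA)) : p ∈ SG := by
  have hx : xE ∈ gG.range := wallP_range xE ⟨⟨rfl, rfl⟩, ⟨rfl, rfl⟩⟩
  have hp' := wallP_range p hp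
  have hle : Subgroup.zpowers xE ⊔ Subgroup.zpowers p ≤ gG.range := by
    rw [sup_le_iff, Subgroup.zpowers_le, Subgroup.zpowers_le]
    exact ⟨hx, hp'⟩
  exact chain_pgroup _ (isP.to_le hle) (Nat.card (Subgroup.zpowers xE ⊔ Subgroup.zpowers p :
    Subgroup G)) (Subgroup.zpowers xE) le_sup_left (by omega)

theorem closure_eq : Subgroup.closure SG = H := by
  apply le_antisymm
  · rw [Subgroup.closure_le]
    exact fun g hg => SG_sub g hg
  · intro h hh
    obtain ⟨z, hz, p, hp, rfl⟩ := (dec_wr (dec_wr dec_A)).2 h hh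
    apply Subgroup.mul_mem
    · exact Subgroup.subset_closure (comm_mem z ((dec_wr (dec_wr dec_A)).1 z hz xE xE_mem))
    · exact Subgroup.subset_closure (p_mem p hp)

noncomputable instance : Fintype H := Fintype.ofFinite H

theorem final (C : Subgroup G) (hC : C = H) (y : C) (hy : (y : G) = xE)
    (f : {χ : G → ℂ // (∃ V : FDRep ℂ G, CategoryTheory.Simple V ∧ V.character = χ) ∧ χ xE ≠ 0} ≃
      {ψ : C → ℂ // (∃ W : FDRep ℂ C, CategoryTheory.Simple W ∧ W.character = ψ) ∧ ψ y ≠ 0})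
    (hf : ∀ χ, ∀ n m : ℕ, χ.1 1 = (n : ℂ) → (f χ).1 1 = (m : ℂ) →
      padicValNat 2 n = padicValNat 2 m) : False := by
  subst hC
  have key : ∀ v : ℕ, {χ : G → ℂ | χ ∈ IrrC G ∧ χ xE ≠ 0 ∧ ∃ n : ℕ, χ 1 = n ∧
      padicValNat 2 n = v}.ncard =
      {χ : H → ℂ | χ ∈ IrrC H ∧ χ y ≠ 0 ∧ ∃ n : ℕ, χ 1 = n ∧ padicValNat 2 n = v}.ncard := by
    intro v
    apply Set.ncard_congr (fun χ hχ => (f ⟨χ, hχ.1, hχ.2.1⟩).1)
    · rintro χ ⟨h1, h2, n, hn, hv⟩
      obtain ⟨m, _, hm⟩ := irr_one (f ⟨χ, h1, h2⟩).2.1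
      refine ⟨(f ⟨χ, h1, h2⟩).2.1, (f ⟨χ, h1, h2⟩).2.2, m, hm, ?_⟩
      rw [← hv]
      exact (hf ⟨χ, h1, h2⟩ n m hn hm).symm
    · intro χ ψ h1 h2 h
      have := f.injective (Subtype.ext h)
      exact congrArg Subtype.val this
    · rintro ψ ⟨h1, h2, m, hm, hv⟩
      obtain ⟨χ, hχ⟩ := f.surjective ⟨ψ, h1, h2⟩
      obtain ⟨n, _, hn⟩ := irr_one χ.2.1
      have h3 : (f χ).1 = ψ := by rw [hχ]
      refine ⟨χ.1, ⟨χ.2.1, χ.2.2, n, hn, ?_⟩, h3⟩
      rw [← hv]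
      exact hf χ n m hn (by rw [h3, hm])
  have hy' : wiso N0 y = ⟨⟨sE, sE_mem⟩, ⟨tE, tE_mem⟩, false⟩ := by
    have : y = ⟨xE, ⟨sE_mem, tE_mem⟩⟩ := Subtype.ext hy
    rw [this]; rfl
  have k0 := (key 0).trans (card_comp (wiso N0) y (fun n => padicValNat 2 n = 0))
  have k1 := (key 1).trans (card_comp (wiso N0) y (fun n => padicValNat 2 n = 1))
  rw [hy'] at k0 k1
  exact contradiction_of_counts (M := Wr A) (L := N0) sE tE ⟨sE, sE_mem⟩ ⟨tE, tE_mem⟩
    sE_pow tE_pow (Subtype.ext sE_pow) (Subtype.ext tE_pow) odd_N0 exists_odd k0 k1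

end Pool.Agent.W367.SN
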