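import Pool.Agent.W367.SN.GrpA

set_option autoImplicit false

namespace Pool.Agent.W367.SN

/-- a primitive cube root of unity -/
noncomputable def w3 : ℂ := ⟨-1 / 2, Real.sqrt 3 / 2⟩

theorem w3_sq : w3 * w3 = (-1 : ℤ) • (1 : ℂ) + (-1 : ℤ) • w3 := by
  have h3 : Real.sqrt 3 * Real.sqrt 3 = 3 := Real.mul_self_sqrt (by norm_num)
  apply Complex.ext
  · simp [w3]
    nlinarith [h3]
  · simp [w3]
    ring

/-- the embedding of the Eisenstein integers -/
noncomputable def phR : R →+* ℂ := (QuadraticAlgebra.lift ⟨w3, w3_sq⟩ : R →ₐ[ℤ] ℂ).toRingHom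

theorem ph_cc (q : Q) : phR (cc q) ≠ 0 := by
  intro h
  have := congrArg phR (ww_cc q)
  rw [map_mul, map_mul, h, zero_mul, mul_zero] at this
  have h3 : phR 3 = 3 := map_ofNat phR 3
  rw [h3] at this
  norm_num at this

noncomputable def rhoA : A →* Matrix (ZMod 3) (ZMod 3) ℂ where
  toFun g := (phR (cc g.right))⁻¹ • (phR.mapMatrix (T g.left * Wt g.right))
  map_one' := by
    have h1 : cc (1 : Q) = 1 := by decide
    have h2 : Wt (1 : Q) = 1 := by decide +kernel
    rw [SemidirectProduct.one_left, SemidirectProduct.one_right, h1, h2, T_one]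
    simp
  map_mul' g g' := by
    have h1 : cc (g.right * g'.right) • ((T g.left * Wt g.right) * (T g'.left * Wt g'.right)) =
        (cc g.right * cc g'.right) • (T (g * g').left * Wt (g * g').right) := by
      have h2 : (g * g').left = g.left * act g.right g'.left := rfl
      have h3 : (g * g').right = g.right * g'.right := rfl
      have h4 : (T g.left * Wt g.right) * (T g'.left * Wt g'.right) =
          (T g.left * T (act g.right g'.left)) * (Wt g.right * Wt g'.right) := by
        rw [mul_assoc, ← mul_assoc (Wt g.right), Wt_T]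
        simp only [mul_assoc]
      rw [h2, h3, h4, T_mul, ← Matrix.mul_smul, Wt_mul, Matrix.mul_smul]
    have h5 := congrArg phR.mapMatrix h1
    have h6 : ∀ (r : R) (X : Matrix (ZMod 3) (ZMod 3) R),
        phR.mapMatrix (r • X) = phR r • phR.mapMatrix X := by
      intro r X
      ext i j
      simp [RingHom.mapMatrix_apply, Matrix.map_apply]
    rw [h6, h6, map_mul phR.mapMatrix (T g.left * Wt g.right)] at h5
    have c1 := ph_cc g.right
    have c2 := ph_cc g'.right
    have c3 := ph_cc (g.right * g'.right)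
    have h7 : (g * g').right = g.right * g'.right := rfl
    rw [h7] at h5
    rw [smul_mul_smul_comm, h7]
    have h8 : phR.mapMatrix (T g.left * Wt g.right) * phR.mapMatrix (T g'.left * Wt g'.right) =
        (phR (cc (g.right * g'.right)))⁻¹ • (phR (cc g.right * cc g'.right) •
          phR.mapMatrix (T (g * g').left * Wt (g.right * g'.right))) := by
      rw [← h5, smul_smul, inv_mul_cancel₀ c3, one_smul]
    rw [h8, smul_smul, smul_smul, map_mul phR]
    congr 1
    field_simp

/-- the irreducible character of degree three -/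
noncomputable def chiA : A → ℂ := fun g => (rhoA g).trace

theorem chiA_eq (g : A) : chiA g = (phR (cc g.right))⁻¹ * phR (tt g) := by
  have : (phR.mapMatrix (T g.left * Wt g.right)).trace = phR (tt g) := by
    rw [tt, Matrix.trace, Matrix.trace, map_sum]
    rfl
  rw [← this]
  exact Matrix.trace_smul _ _

theorem chiA_mem : chiA ∈ IrrC A := by
  apply mem_irr_of_matrix
  have h1 : ∀ g : A, (rhoA g).trace * (rhoA g⁻¹).trace =
      (1 / 3) * phR (ww g.right * (tt g * tt g⁻¹)) := by
    intro g
    change chiA g * chiA g⁻¹ = _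
    rw [chiA_eq, chiA_eq]
    have h2 := congrArg phR (ww_cc g.right)
    have h3 : phR 3 = 3 := map_ofNat phR 3
    rw [map_mul, map_mul, h3] at h2
    have h4 : (g⁻¹).right = (g.right)⁻¹ := rfl
    rw [h4, map_mul, map_mul]
    have c1 := ph_cc g.right
    have c2 := ph_cc (g.right)⁻¹
    rw [← h2]
    have c4 : phR (ww g.right) ≠ 0 := by
      intro h
      rw [h, zero_mul] at h2
      norm_num at h2
    field_simp
  rw [Finset.sum_congr rfl (fun g _ => h1 g), ← Finset.mul_sum, ← map_sum, norm_tt, card_A]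
  have h5 : phR 648 = 648 := map_ofNat phR 648
  rw [h5]
  norm_num

/-- the elements `-1, i, j, k` -/
def X0 : A := SemidirectProduct.inr (.a 2)
def X1 : A := SemidirectProduct.inr (.a 1)
def X2 : A := SemidirectProduct.inr (.xa 0)
def X3 : A := SemidirectProduct.inr (.xa 3)

theorem chiA_one : chiA 1 = 3 := by
  rw [chiA_eq]
  have h1 : cc (1 : A).right = 1 := by decide
  have h2 : tt 1 = 3 := by decide +kernel
  rw [h1, h2, map_one, inv_one, one_mul]
  exact map_ofNat phR 3

theorem chiA_X0 : chiA X0 = -1 := by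
  rw [chiA_eq]
  have h1 : cc X0.right = 1 := by decide
  have h2 : tt X0 = -1 := by decide +kernel
  rw [h1, h2, map_one, inv_one, one_mul, map_neg, map_one]

theorem chiA_X1 : chiA X1 = 1 := by
  rw [chiA_eq]
  have h2 : tt X1 = cc X1.right := by decide +kernel
  rw [h2, inv_mul_cancel₀ (ph_cc _)]

theorem chiA_X2 : chiA X2 = 1 := by
  rw [chiA_eq]
  have h2 : tt X2 = cc X2.right := by decide +kernel
  rw [h2, inv_mul_cancel₀ (ph_cc _)]

theorem chiA_X3 : chiA X3 = 1 := by
  rw [chiA_eq]
  have h2 : tt X3 = cc X3.right := by decide +kernel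
  rw [h2, inv_mul_cancel₀ (ph_cc _)]

/-- the two elements of the wreath product -/
def sE : Wr A := ⟨X0, X1, false⟩
def tE : Wr A := ⟨X2, X3, false⟩

theorem sE_pow : sE ^ 4 = 1 := by decide +kernel
theorem tE_pow : tE ^ 4 = 1 := by decide +kernel

theorem exists_odd : ∃ α ∈ OddIrr (Wr A), α sE = - α tE := by
  refine ⟨ext 1 chiA, ⟨ext_mem chiA_mem 1 (by norm_num), 9, by decide, ?_⟩, ?_⟩
  · rw [one_wr, ext_f, chiA_one]; norm_num
  · rw [sE, tE, ext_f, ext_f, chiA_X0, chiA_X1, chiA_X2, chiA_X3]; norm_num

end Pool.Agent.W367.SN
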