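import Pool.Agent.W367.SN.Wr

set_option autoImplicit false

namespace Pool.Agent.W367.SN

/-- irreducible characters of odd degree -/
def OddIrr (M : Type) [Group M] : Set (M → ℂ) :=
  {α | α ∈ IrrC M ∧ ∃ n : ℕ, Odd n ∧ α 1 = n}

/-- irreducible characters of odd degree not vanishing at `x` -/
def E0 (Γ : Type) [Group Γ] (x : Γ) : Set (Γ → ℂ) :=
  {χ | χ ∈ IrrC Γ ∧ χ x ≠ 0 ∧ ∃ n : ℕ, χ 1 = n ∧ padicValNat 2 n = 0}

/-- irreducible characters of degree twice an odd number, not vanishing at `x` -/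
def E1 (Γ : Type) [Group Γ] (x : Γ) : Set (Γ → ℂ) :=
  {χ | χ ∈ IrrC Γ ∧ χ x ≠ 0 ∧ ∃ n : ℕ, χ 1 = n ∧ padicValNat 2 n = 1}

theorem val_odd {n : ℕ} (hn : 0 < n) : padicValNat 2 n = 0 ↔ Odd n := by
  rw [padicValNat.eq_zero_iff]
  constructor
  · rintro (h | h | h)
    · omega
    · omega
    · rwa [← Nat.not_even_iff_odd, even_iff_two_dvd]
  · intro h
    right; right
    rwa [← even_iff_two_dvd, Nat.not_even_iff_odd]

section
variable {M : Type} [Group M] [Fintype M]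

omit [Fintype M] in
theorem one_wr : (1 : Wr M) = ⟨1, 1, false⟩ := rfl

omit [Fintype M] in
theorem ext_inj {α α' : M → ℂ} {ε ε' : ℂ} (hα : α ∈ IrrC M) (hα' : α' ∈ IrrC M)
    (h : ext ε α = ext ε' α') : α = α' ∧ ε = ε' := by
  obtain ⟨n, hn, h1⟩ := irr_one hα
  obtain ⟨m, hm, h2⟩ := irr_one hα'
  have e1 := congrFun h ⟨1, 1, false⟩
  have e2 := congrFun h ⟨1, 1, true⟩
  simp only [ext_f, ext_t, h1, h2, mul_one] at e1 e2
  have hnm : n = m := by
    have : n * n = m * m := by exact_mod_cast e1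
    exact Nat.mul_self_inj.1 this
  subst hnm
  have hn' : (n : ℂ) ≠ 0 := by exact_mod_cast hn.ne'
  constructor
  · funext a
    have e3 := congrFun h ⟨a, 1, false⟩
    simp only [ext_f, h1, h2] at e3
    exact mul_right_cancel₀ hn' e3
  · exact mul_right_cancel₀ hn' e2

theorem ind_inner {α β α' β' : M → ℂ} :
    ∑ a, ∑ b, ind α' β' ⟨a, b, false⟩ * (α a⁻¹ * β b⁻¹) =
      (∑ a, α' a * α a⁻¹) * (∑ b, β' b * β b⁻¹) + (∑ a, β' a * α a⁻¹) * (∑ b, α' b * β b⁻¹) := by
  rw [Finset.sum_mul_sum, Finset.sum_mul_sum, ← Finset.sum_add_distrib]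
  apply Finset.sum_congr rfl
  intro a _
  rw [← Finset.sum_add_distrib]
  apply Finset.sum_congr rfl
  intro b _
  simp only [ind_f]
  ring

theorem ind_inj {α β α' β' : M → ℂ} (hα : α ∈ IrrC M) (hβ : β ∈ IrrC M)
    (hα' : α' ∈ IrrC M) (hβ' : β' ∈ IrrC M) (hne : α ≠ β)
    (h : ind α β = ind α' β') : (α = α' ∧ β = β') ∨ (α = β' ∧ β = α') := by
  have e1 : ∑ a, ∑ b, ind α β ⟨a, b, false⟩ * (α a⁻¹ * β b⁻¹) = (Fintype.card M : ℂ) ^ 2 := by
    rw [ind_inner, irr_norm hα, irr_norm hβ, irr_orth hα hβ hne]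
    ring
  rw [h, ind_inner] at e1
  have hc : (Fintype.card M : ℂ) ^ 2 ≠ 0 := by
    have : (Fintype.card M : ℂ) ≠ 0 := by exact_mod_cast Fintype.card_ne_zero
    exact pow_ne_zero 2 this
  by_contra hcon
  push Not at hcon
  obtain ⟨c1, c2⟩ := hcon
  apply hc
  rw [← e1]
  have z1 : (∑ a, α' a * α a⁻¹) * (∑ b, β' b * β b⁻¹) = 0 := by
    by_cases k : α = α'
    · rw [irr_orth hβ' hβ (fun h => c1 k h.symm), mul_zero]
    · rw [irr_orth hα' hα (fun h => k h.symm), zero_mul]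
  have z2 : (∑ a, β' a * α a⁻¹) * (∑ b, α' b * β b⁻¹) = 0 := by
    by_cases k : α = β'
    · rw [irr_orth hα' hβ (fun h => c2 k h.symm), mul_zero]
    · rw [irr_orth hβ' hα (fun h => k h.symm), zero_mul]
  rw [z1, z2, add_zero]

theorem oddIrr_finite : (OddIrr M).Finite := irr_finite.subset (fun _ h => h.1)

omit [Group M] [Fintype M] in
theorem ind_comm (α β : M → ℂ) : ind α β = ind β α := by
  funext w
  rcases w with ⟨a, b, e⟩
  cases e
  · simp only [ind_f]; ring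
  · rfl

/-- characters of odd degree -/
theorem card_E0 (s t : M) (hs : ∀ α ∈ OddIrr M, α s ≠ 0) (ht : ∀ α ∈ OddIrr M, α t ≠ 0) :
    (E0 (Wr M) ⟨s, t, false⟩).ncard = 2 * (OddIrr M).ncard := by
  have h1 : E0 (Wr M) ⟨s, t, false⟩ =
      (fun α => ext 1 α) '' (OddIrr M) ∪ (fun α => ext (-1) α) '' (OddIrr M) := by
    ext χ
    constructor
    · rintro ⟨hχ, hx, n, hn, hv⟩
      have hn0 : 0 < n := by
        rcases Nat.eq_zero_or_pos n with h | h
        · subst h; exact absurd (by simpa using hn) (irr_one_ne hχ)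
        · exact h
      rw [val_odd hn0] at hv
      rcases wr_classify hχ with ⟨α, hα, ε, hε, rfl⟩ | ⟨α, hα, β, hβ, hne, rfl⟩
      · have hodd : α ∈ OddIrr M := by
          obtain ⟨m, hm, h1⟩ := irr_one hα
          refine ⟨hα, m, ?_, h1⟩
          rw [one_wr, ext_f, h1] at hn
          have : m * m = n := by exact_mod_cast hn
          rw [← this] at hv
          exact (Nat.odd_mul.1 hv).1
        rcases hε with rfl | rfl
        · left; exact ⟨α, hodd, rfl⟩
        · right; exact ⟨α, hodd, rfl⟩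
      · exfalso
        obtain ⟨m, hm, h1⟩ := irr_one hα
        obtain ⟨k, hk, h2⟩ := irr_one hβ
        rw [one_wr, ind_f, h1, h2] at hn
        have : m * k + k * m = n := by exact_mod_cast hn
        rw [← this, mul_comm k m] at hv
        rcases hv with ⟨r, hr⟩
        omega
    · rintro (⟨α, hα, rfl⟩ | ⟨α, hα, rfl⟩)
      · refine ⟨ext_mem hα.1 1 (by norm_num), mul_ne_zero (hs α hα) (ht α hα), ?_⟩
        obtain ⟨m, hm, h1⟩ := hα.2
        refine ⟨m * m, ?_, ?_⟩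
        · rw [one_wr]; simp only [ext_f, h1]; push_cast; rfl
        · rw [val_odd (Nat.mul_pos hm.pos hm.pos)]; exact hm.mul hm
      · refine ⟨ext_mem hα.1 (-1) (by norm_num), mul_ne_zero (hs α hα) (ht α hα), ?_⟩
        obtain ⟨m, hm, h1⟩ := hα.2
        refine ⟨m * m, ?_, ?_⟩
        · rw [one_wr]; simp only [ext_f, h1]; push_cast; rfl
        · rw [val_odd (Nat.mul_pos hm.pos hm.pos)]; exact hm.mul hm
  have hd : Disjoint ((fun α => ext 1 α) '' (OddIrr M)) ((fun α => ext (-1) α) '' (OddIrr M)) := by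
    rw [Set.disjoint_left]
    rintro _ ⟨α, hα, rfl⟩ ⟨β, hβ, h⟩
    have := (ext_inj hβ.1 hα.1 h).2
    norm_num at this
  have i1 : Set.InjOn (fun α : M → ℂ => ext 1 α) (OddIrr M) :=
    fun α hα β hβ h => (ext_inj hα.1 hβ.1 h).1
  have i2 : Set.InjOn (fun α : M → ℂ => ext (-1) α) (OddIrr M) :=
    fun α hα β hβ h => (ext_inj hα.1 hβ.1 h).1
  rw [h1, Set.ncard_union_eq hd (oddIrr_finite.image _) (oddIrr_finite.image _),
    i1.ncard_image, i2.ncard_image, two_mul]

/-- ordered pairs of distinct characters of odd degree whose induced character does not vanish -/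
def Prs (M : Type) [Group M] (s t : M) : Set ((M → ℂ) × (M → ℂ)) :=
  {p | p.1 ∈ OddIrr M ∧ p.2 ∈ OddIrr M ∧ p.1 ≠ p.2 ∧ p.1 s * p.2 t + p.2 s * p.1 t ≠ 0}

theorem prs_finite (s t : M) : (Prs M s t).Finite :=
  (oddIrr_finite.prod oddIrr_finite).subset (fun _ h => ⟨h.1, h.2.1⟩)

theorem card_E1 (s t : M) : 2 * (E1 (Wr M) ⟨s, t, false⟩).ncard = (Prs M s t).ncard := by
  classical
  have hfin := prs_finite (M := M) s t
  have h1 : E1 (Wr M) ⟨s, t, false⟩ = (fun p : (M → ℂ) × (M → ℂ) => ind p.1 p.2) '' Prs M s t := by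
    ext χ
    constructor
    · rintro ⟨hχ, hx, n, hn, hv⟩
      rcases wr_classify hχ with ⟨α, hα, ε, hε, rfl⟩ | ⟨α, hα, β, hβ, hne, rfl⟩
      · exfalso
        obtain ⟨m, hm, h1⟩ := irr_one hα
        rw [one_wr, ext_f, h1] at hn
        have : m * m = n := by exact_mod_cast hn
        rw [← this, padicValNat.mul hm.ne' hm.ne'] at hv
        omega
      · obtain ⟨m, hm, h1⟩ := irr_one hα
        obtain ⟨k, hk, h2⟩ := irr_one hβ
        rw [one_wr, ind_f, h1, h2] at hn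
        have h3 : m * k + k * m = n := by exact_mod_cast hn
        have h4 : n = 2 * (m * k) := by rw [← h3]; ring
        rw [h4, padicValNat.mul (by norm_num) (Nat.mul_pos hm hk).ne',
          padicValNat.mul hm.ne' hk.ne', padicValNat.self (by norm_num)] at hv
        have h5 : padicValNat 2 m = 0 := by omega
        have h6 : padicValNat 2 k = 0 := by omega
        rw [val_odd hm] at h5
        rw [val_odd hk] at h6
        exact ⟨(α, β), ⟨⟨hα, m, h5, h1⟩, ⟨hβ, k, h6, h2⟩, hne, hx⟩, rfl⟩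
    · rintro ⟨⟨α, β⟩, ⟨hα, hβ, hne, hx⟩, rfl⟩
      refine ⟨ind_mem hα.1 hβ.1 hne, hx, ?_⟩
      obtain ⟨m, hm, h1⟩ := hα.2
      obtain ⟨k, hk, h2⟩ := hβ.2
      change α 1 = m at h1
      change β 1 = k at h2
      refine ⟨2 * (m * k), ?_, ?_⟩
      · rw [one_wr]; simp only [ind_f, h1, h2]; push_cast; ring
      · rw [padicValNat.mul (by norm_num) (Nat.mul_pos hm.pos hk.pos).ne',
          padicValNat.mul hm.pos.ne' hk.pos.ne', padicValNat.self (by norm_num),
          (val_odd hm.pos).2 hm, (val_odd hk.pos).2 hk]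
  let S := hfin.toFinset
  let Φ : (M → ℂ) × (M → ℂ) → (Wr M → ℂ) := fun p => ind p.1 p.2
  have hS : ∀ p, p ∈ S ↔ p ∈ Prs M s t := fun p => hfin.mem_toFinset
  have h2 : S.card = 2 * (S.image Φ).card := by
    rw [Finset.card_eq_sum_card_image Φ S, Finset.sum_const_nat (m := 2), mul_comm]
    intro χ hχ
    rw [Finset.mem_image] at hχ
    obtain ⟨⟨α, β⟩, hp, rfl⟩ := hχ
    rw [hS] at hp
    obtain ⟨hα, hβ, hne, hx⟩ := hp
    have h3 : S.filter (fun q => Φ q = Φ (α, β)) = {(α, β), (β, α)} := by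
      ext ⟨α', β'⟩
      simp only [Finset.mem_filter, Finset.mem_insert, Finset.mem_singleton, Prod.mk.injEq, hS]
      constructor
      · rintro ⟨⟨hα', hβ', hne', _⟩, h⟩
        exact ind_inj hα'.1 hβ'.1 hα.1 hβ.1 hne' h
      · rintro (⟨rfl, rfl⟩ | ⟨rfl, rfl⟩)
        · exact ⟨⟨hα, hβ, hne, hx⟩, rfl⟩
        · refine ⟨⟨hβ, hα, hne.symm, ?_⟩, ind_comm _ _⟩
          rw [add_comm]
          simpa [mul_comm] using hx
    rw [h3, Finset.card_pair]
    intro h
    rw [Prod.mk.injEq] at h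
    exact hne h.1
  have h4 : (Prs M s t).ncard = S.card := Set.ncard_eq_toFinset_card _ hfin
  have h5 : (E1 (Wr M) ⟨s, t, false⟩).ncard = (S.image Φ).card := by
    rw [h1, Set.ncard_eq_toFinset_card _ (hfin.image _)]
    congr 1
    ext χ
    simp [S, Φ]
  rw [h4, h5, h2]

end

end Pool.Agent.W367.SN
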