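import Pool.Agent.W367.SN.NV

set_option autoImplicit false

namespace Pool.Agent.W367.SN

/-- The Heisenberg group of order 27. -/
@[ext]
structure Hs where
  x : ZMod 3
  y : ZMod 3
  z : ZMod 3
deriving DecidableEq

namespace Hs
instance : One Hs := ⟨⟨0, 0, 0⟩⟩
instance : Mul Hs := ⟨fun h k => ⟨h.x + k.x, h.y + k.y, h.z + k.z + 2 * (h.x * k.y - h.y * k.x)⟩⟩
instance : Inv Hs := ⟨fun h => ⟨-h.x, -h.y, -h.z⟩⟩
theorem one_def : (1 : Hs) = ⟨0, 0, 0⟩ := rfl
theorem mul_def (h k : Hs) :
    h * k = ⟨h.x + k.x, h.y + k.y, h.z + k.z + 2 * (h.x * k.y - h.y * k.x)⟩ := rfl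
theorem inv_def (h : Hs) : h⁻¹ = ⟨-h.x, -h.y, -h.z⟩ := rfl

instance : Group Hs :=
  Group.ofLeftAxioms
    (by
      rintro ⟨a, b, c⟩ ⟨d, e, f⟩ ⟨g, h, i⟩
      simp only [mul_def, Hs.mk.injEq]
      refine ⟨?_, ?_, ?_⟩ <;> ring)
    (by rintro ⟨a, b, c⟩; simp [mul_def, one_def])
    (by
      rintro ⟨a, b, c⟩
      simp only [mul_def, inv_def, one_def, Hs.mk.injEq]
      refine ⟨?_, ?_, ?_⟩ <;> ring)

def equiv : Hs ≃ ZMod 3 × ZMod 3 × ZMod 3 where
  toFun h := (h.x, h.y, h.z)
  invFun h := ⟨h.1, h.2.1, h.2.2⟩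
  left_inv _ := rfl
  right_inv _ := rfl

instance : Fintype Hs := Fintype.ofEquiv _ equiv.symm
end Hs

abbrev Q := QuaternionGroup 2

def I2 : Matrix (Fin 2) (Fin 2) (ZMod 3) := !![0, 2; 1, 0]
def J2 : Matrix (Fin 2) (Fin 2) (ZMod 3) := !![1, 1; 1, 2]

/-- the action of the quaternion group on the plane over the field with three elements -/
def mt : Q → Matrix (Fin 2) (Fin 2) (ZMod 3)
  | .a i => I2 ^ i.val
  | .xa i => J2 * I2 ^ i.val

theorem mt_mul : ∀ p q : Q, mt (p * q) = mt p * mt q := by decide +kernel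
theorem mt_one : mt 1 = 1 := by decide +kernel
theorem mt_det : ∀ q : Q, mt q 0 0 * mt q 1 1 - mt q 0 1 * mt q 1 0 = 1 := by decide +kernel

def act (q : Q) (h : Hs) : Hs :=
  ⟨mt q 0 0 * h.x + mt q 0 1 * h.y, mt q 1 0 * h.x + mt q 1 1 * h.y, h.z⟩

theorem act_mul (p q : Q) (h : Hs) : act (p * q) h = act p (act q h) := by
  simp only [act, mt_mul, Matrix.mul_apply, Fin.sum_univ_two, Hs.mk.injEq, and_true]
  refine ⟨?_, ?_⟩ <;> ring

theorem act_one (h : Hs) : act 1 h = h := by
  simp [act, mt_one]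

theorem act_hom (q : Q) (h k : Hs) : act q (h * k) = act q h * act q k := by
  simp only [act, Hs.mul_def, Hs.mk.injEq]
  refine ⟨by ring, by ring, ?_⟩
  linear_combination (-(2 * (h.x * k.y - h.y * k.x))) * mt_det q

def phi : Q →* MulAut Hs where
  toFun q :=
    { toFun := act q
      invFun := act q⁻¹
      left_inv := fun h => by rw [← act_mul, inv_mul_cancel, act_one]
      right_inv := fun h => by rw [← act_mul, mul_inv_cancel, act_one]
      map_mul' := act_hom q }
  map_one' := by ext1 h; exact act_one h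
  map_mul' p q := by ext1 h; exact act_mul p q h

/-- The group of order 216. -/
abbrev A := Hs ⋊[phi] Q

instance : Fintype A := Fintype.ofEquiv _ SemidirectProduct.equivProd.symm

theorem card_A : Fintype.card A = 216 := by
  rw [Fintype.card_congr SemidirectProduct.equivProd]
  rfl

/-- the Eisenstein integers -/
abbrev R := QuadraticAlgebra ℤ (-1) (-1)

def om : ZMod 3 → R := fun i => if i = 0 then 1 else if i = 1 then ⟨0, 1⟩ else ⟨-1, -1⟩

def T (h : Hs) : Matrix (ZMod 3) (ZMod 3) R :=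
  Matrix.of fun u v => if v = u + h.x then om (h.z + h.y * u + 2 * h.x * h.y) else 0

set_option maxRecDepth 100000 in
theorem T_mul : ∀ h k : Hs, T (h * k) = T h * T k := by
  decide +kernel

theorem T_one : T 1 = 1 := by decide +kernel

/-- the unnormalised Weil representation of the quaternion group -/
def Wt (q : Q) : Matrix (ZMod 3) (ZMod 3) R :=
  Matrix.of fun u v =>
    if q = .a 0 then (if u = v then 1 else 0)
    else if q = .a 1 then - om (2 * u * v)
    else if q = .a 2 then (if v = -u then -1 else 0)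
    else if q = .a 3 then om (u * v)
    else if q = .xa 0 then om (2 * u * u + u * v + v * v)
    else if q = .xa 1 then - om (u * u + 2 * u * v + 2 * v * v)
    else if q = .xa 2 then - om (2 * u * u + 2 * u * v + v * v)
    else om (u * u + u * v + 2 * v * v)

def cc (q : Q) : R := if q = .a 0 ∨ q = .a 2 then 1 else ⟨1, 2⟩

set_option maxRecDepth 100000 in
theorem Wt_mul : ∀ p q : Q, cc (p * q) • (Wt p * Wt q) = (cc p * cc q) • Wt (p * q) := by
  decide +kernel

set_option maxRecDepth 100000 in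
theorem Wt_T : ∀ (q : Q) (h : Hs), Wt q * T h = T (act q h) * Wt q := by
  decide +kernel

/-- the unnormalised character -/
def tt (g : A) : R := (T g.left * Wt g.right).trace

def ww (q : Q) : R := if q = .a 0 ∨ q = .a 2 then 3 else -1

set_option maxRecDepth 100000 in
theorem norm_tt : ∑ g : A, ww g.right * (tt g * tt g⁻¹) = 648 := by
  decide +kernel

theorem ww_cc : ∀ q : Q, ww q * (cc q * cc q⁻¹) = 3 := by decide +kernel

end Pool.Agent.W367.SN
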