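import Pool.Agent.Helper199.RepDim

set_option autoImplicit false
open CategoryTheory

namespace Pool.Agent.W367.SN
open Pool.Agent.Helper199.RepDim

/-- The set of irreducible complex characters of a group. -/
def IrrC (Γ : Type) [Group Γ] : Set (Γ → ℂ) :=
  {χ | ∃ V : FDRep ℂ Γ, Simple V ∧ V.character = χ}

section basic
variable {Γ : Type} [Group Γ]

theorem irr_class {χ : Γ → ℂ} (h : χ ∈ IrrC Γ) (g u : Γ) : χ (u * g * u⁻¹) = χ g := by
  obtain ⟨V, _, rfl⟩ := h
  exact V.char_conj g u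

theorem irr_comm {χ : Γ → ℂ} (h : χ ∈ IrrC Γ) (g u : Γ) : χ (u * g) = χ (g * u) := by
  obtain ⟨V, _, rfl⟩ := h
  exact V.char_mul_comm g u

theorem irr_one {χ : Γ → ℂ} (h : χ ∈ IrrC Γ) : ∃ n : ℕ, 0 < n ∧ χ 1 = n := by
  obtain ⟨V, hV, rfl⟩ := h
  refine ⟨Module.finrank ℂ V, ?_, V.char_one⟩
  obtain ⟨v, hv⟩ := simple_nonzero V
  have : Nontrivial V := ⟨⟨v, 0, hv⟩⟩
  exact Module.finrank_pos

theorem irr_one_ne {χ : Γ → ℂ} (h : χ ∈ IrrC Γ) : χ 1 ≠ 0 := by
  obtain ⟨n, hn, h1⟩ := irr_one h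
  rw [h1]; exact_mod_cast hn.ne'

variable [Fintype Γ]

theorem irr_norm {χ : Γ → ℂ} (h : χ ∈ IrrC Γ) : ∑ g, χ g * χ g⁻¹ = Fintype.card Γ := by
  obtain ⟨V, hV, rfl⟩ := h
  have := (FDRep.simple_iff_char_is_norm_one V).1 hV
  rw [this, Nat.card_eq_fintype_card]

theorem irr_orth {χ ψ : Γ → ℂ} (h : χ ∈ IrrC Γ) (h' : ψ ∈ IrrC Γ) (hne : χ ≠ ψ) :
    ∑ g, χ g * ψ g⁻¹ = 0 := by
  obtain ⟨V, hV, rfl⟩ := h
  obtain ⟨W, hW, rfl⟩ := h'
  have : Invertible (Nat.card Γ : ℂ) := invertibleOfNonzero (by exact_mod_cast Nat.card_pos.ne')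
  have h1 := FDRep.char_orthonormal V W
  rw [if_neg] at h1
  · have h2 : ((Nat.card Γ : ℂ))⁻¹ ≠ 0 := by
      rw [ne_eq, inv_eq_zero]; exact_mod_cast Nat.card_pos.ne'
    exact (mul_eq_zero.1 h1).resolve_left h2
  · rintro ⟨i⟩
    exact hne (FDRep.char_iso i)

theorem mem_irr_of_matrix {ι : Type} [Fintype ι] [DecidableEq ι] (ρ : Γ →* Matrix ι ι ℂ)
    (h : ∑ g, (ρ g).trace * (ρ g⁻¹).trace = Fintype.card Γ) :
    (fun g => (ρ g).trace) ∈ IrrC Γ := by
  let r : Representation ℂ Γ (ι → ℂ) :=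
    (Matrix.toLinAlgEquiv' (R := ℂ) (n := ι)).toAlgHom.toRingHom.toMonoidHom.comp ρ
  have hr : ∀ g, r g = Matrix.toLin' (ρ g) := fun g => rfl
  have hc : ∀ g, (FDRep.of r).character g = (ρ g).trace := by
    intro g
    change LinearMap.trace ℂ _ (r g) = _
    rw [hr]
    exact Matrix.trace_toLin'_eq (ρ g)
  refine ⟨FDRep.of r, ?_, funext hc⟩
  rw [FDRep.simple_iff_char_is_norm_one]
  simp only [hc]
  rw [h, Nat.card_eq_fintype_card]

/-- Simple left ideals of the group algebra give simple representations. -/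
theorem simple_piece (m : Submodule (MonoidAlgebra ℂ Γ) (MonoidAlgebra ℂ Γ))
    (hm : IsSimpleModule (MonoidAlgebra ℂ Γ) m) :
    ∃ V : FDRep ℂ Γ, Simple V ∧ ∃ φ : V →ₗ[ℂ] MonoidAlgebra ℂ Γ,
      (∀ x ∈ m, ∃ v, φ v = x) ∧ Function.Injective φ ∧
      ∀ g v, φ (V.ρ g v) = MonoidAlgebra.of ℂ Γ g * φ v := by
  classical
  let R := MonoidAlgebra ℂ Γ
  let δ : Γ →* R := MonoidAlgebra.of ℂ Γ
  let X : Submodule ℂ R := m.restrictScalars ℂ
  have hmem : ∀ (a : R) (x : R), x ∈ X → a * x ∈ X := fun a x hx => m.smul_mem a hx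
  let ρ : Representation ℂ Γ X :=
    { toFun := fun g => (LinearMap.mulLeft ℂ (δ g)).restrict (fun x hx => hmem (δ g) x hx)
      map_one' := by ext x; simp
      map_mul' := fun g h => by
        apply LinearMap.ext
        intro x
        apply Subtype.ext
        change δ (g * h) * (x : R) = δ g * (δ h * (x : R))
        rw [map_mul, mul_assoc] }
  have hρ : ∀ g (x : X), ((ρ g x : X) : R) = δ g * (x : R) := fun g x => rfl
  have hnt : Nontrivial X := by
    have := hm.nontrivial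
    exact this
  have hsimple : Simple (FDRep.of ρ) := by
    apply simple_of_irred
    intro W hW
    have hsm : ∀ (r : R) (x : X) (hx : x ∈ W), ∃ y ∈ W, (y : R) = r * (x : R) := by
      intro r x hx
      induction r using MonoidAlgebra.induction_linear with
      | zero => exact ⟨0, W.zero_mem, by simp⟩
      | add a b ha hb =>
        obtain ⟨y, hy, hy'⟩ := ha
        obtain ⟨z, hz, hz'⟩ := hb
        exact ⟨y + z, W.add_mem hy hz, by simp [hy', hz', add_mul]⟩
      | single g c =>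
        refine ⟨c • ρ g x, W.smul_mem _ (hW g x hx), ?_⟩
        have h1 : (MonoidAlgebra.single g c : MonoidAlgebra ℂ Γ) = c • δ g := by
          change _ = c • (MonoidAlgebra.single g (1 : ℂ) : MonoidAlgebra ℂ Γ)
          rw [MonoidAlgebra.smul_single, smul_eq_mul, mul_one]
        rw [h1]
        change c • (δ g * (x : R)) = (c • δ g) * (x : R)
        rw [smul_mul_assoc]
    let m' : Submodule R R :=
      { carrier := {x | ∃ y ∈ W, (y : R) = x}
        add_mem' := by
          rintro _ _ ⟨y, hy, rfl⟩ ⟨z, hz, rfl⟩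
          exact ⟨y + z, W.add_mem hy hz, rfl⟩
        zero_mem' := ⟨0, W.zero_mem, rfl⟩
        smul_mem' := by
          rintro r _ ⟨y, hy, rfl⟩
          exact hsm r y hy }
    have hm' : m' ≤ m := by
      rintro _ ⟨y, hy, rfl⟩
      exact y.2
    have hatom : IsAtom m := isSimpleModule_iff_isAtom.1 hm
    rcases hatom.le_iff.1 hm' with h | h
    · left
      rw [Submodule.eq_bot_iff]
      intro x hx
      have : (x : R) ∈ m' := ⟨x, hx, rfl⟩
      rw [h, Submodule.mem_bot] at this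
      exact Subtype.ext this
    · right
      rw [Submodule.eq_top_iff']
      intro x
      have h1 : (x : R) ∈ m' := by rw [h]; exact x.2
      obtain ⟨y, hy, hy'⟩ := h1
      have : y = x := Subtype.ext hy'
      rwa [← this]
  refine ⟨FDRep.of ρ, hsimple, X.subtype, ?_, X.subtype_injective, ?_⟩
  · intro x hx; exact ⟨⟨x, hx⟩, rfl⟩
  · intro g v; rfl

omit [Fintype Γ] in
/-- An endomorphism commuting with a simple representation is a scalar. -/
theorem schur (V : FDRep ℂ Γ) (hV : Simple V) (L : V →ₗ[ℂ] V)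
    (hL : ∀ g v, L (V.ρ g v) = V.ρ g (L v)) : ∃ c : ℂ, ∀ v, L v = c • v := by
  obtain ⟨v, hv⟩ := simple_nonzero V
  have hnt : Nontrivial V := ⟨⟨v, 0, hv⟩⟩
  obtain ⟨c, hc⟩ := Module.End.exists_eigenvalue L
  have htop := simple_top V (Module.End.eigenspace L c) (by
      intro g w hw
      rw [Module.End.mem_eigenspace_iff] at hw ⊢
      rw [hL, hw, map_smul]) hc
  refine ⟨c, fun v => ?_⟩
  have hv : v ∈ Module.End.eigenspace L c := by rw [htop]; trivial
  rwa [Module.End.mem_eigenspace_iff] at hv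

/-- Completeness: a class function orthogonal to all irreducible characters vanishes. -/
theorem irr_complete (f : Γ → ℂ) (hf : ∀ g u, f (u * g * u⁻¹) = f g)
    (h : ∀ χ ∈ IrrC Γ, ∑ g, f g * χ g⁻¹ = 0) : f = 0 := by
  classical
  have hne : NeZero (Nat.card Γ : ℂ) := ⟨by exact_mod_cast Nat.card_pos.ne'⟩
  let R := MonoidAlgebra ℂ Γ
  let δ : Γ →* R := MonoidAlgebra.of ℂ Γ
  let z : R := ∑ g, f g • δ g⁻¹
  have key : ∀ m : Submodule R R, IsSimpleModule R m → ∀ x ∈ m, z * x = 0 := by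
    intro m hm x hx
    obtain ⟨V, hV, φ, hφ, hinj, hφg⟩ := simple_piece m hm
    let L : V →ₗ[ℂ] V := ∑ g, f g • V.ρ g⁻¹
    have hL : ∀ u v, L (V.ρ u v) = V.ρ u (L v) := by
      intro u v
      simp only [L, LinearMap.sum_apply, LinearMap.smul_apply, map_sum, map_smul]
      rw [← Equiv.sum_comp (MulAut.conj u).toEquiv]
      apply Finset.sum_congr rfl
      intro g _
      change f (u * g * u⁻¹) • V.ρ (u * g * u⁻¹)⁻¹ (V.ρ u v) = f g • V.ρ u (V.ρ g⁻¹ v)
      rw [hf, ← Module.End.mul_apply, ← map_mul, ← Module.End.mul_apply, ← map_mul]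
      congr 2
      congr 1
      group
    obtain ⟨c, hc⟩ := schur V hV L hL
    have htr : LinearMap.trace ℂ V L = 0 := by
      have h1 := h V.character ⟨V, hV, rfl⟩
      simp only [L, map_sum, map_smul, smul_eq_mul]
      exact h1
    have hLc : L = c • LinearMap.id := LinearMap.ext hc
    rw [hLc, map_smul, LinearMap.trace_id, smul_eq_mul] at htr
    have hfr : (Module.finrank ℂ V : ℂ) ≠ 0 := by
      obtain ⟨v, hv⟩ := simple_nonzero V
      have : Nontrivial V := ⟨⟨v, 0, hv⟩⟩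
      exact_mod_cast (Module.finrank_pos (R := ℂ) (M := V)).ne'
    have hc0 : c = 0 := (mul_eq_zero.1 htr).resolve_right hfr
    obtain ⟨v, rfl⟩ := hφ x hx
    have h2 : φ (L v) = z * φ v := by
      have h3 : z * φ v = ∑ g, f g • (δ g⁻¹ * φ v) := by
        change (∑ g, f g • δ g⁻¹) * φ v = _
        rw [Finset.sum_mul]
        exact Finset.sum_congr rfl (fun g _ => smul_mul_assoc _ _ _)
      rw [h3]
      simp only [L, LinearMap.sum_apply, LinearMap.smul_apply, map_sum, map_smul, hφg]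
      rfl
    rw [← h2, hc, hc0, zero_smul, map_zero]
  have hz : z = 0 := by
    have h1 : (1 : R) ∈ (⊤ : Submodule R R) := trivial
    rw [← IsSemisimpleModule.sSup_simples_eq_top R R, sSup_eq_iSup'] at h1
    have h2 : z * 1 = 0 := by
      refine Submodule.iSup_induction _ (motive := fun x => z * x = 0) h1 ?_ ?_ ?_
      · intro i x hx
        exact key i.1 i.2 x hx
      · rw [mul_zero]
      · intro x y hx hy; rw [mul_add, hx, hy, add_zero]
    rwa [mul_one] at h2
  funext u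
  have h1 : z.coeff u⁻¹ = 0 := by rw [hz]; rfl
  have h2 : z.coeff u⁻¹ = ∑ g, f g * (if g⁻¹ = u⁻¹ then 1 else 0) := by
    change (∑ g, f g • δ g⁻¹).coeff u⁻¹ = _
    rw [MonoidAlgebra.coeff_sum, Finsupp.finsetSum_apply]
    apply Finset.sum_congr rfl
    intro g _
    rw [MonoidAlgebra.coeff_smul_apply, smul_eq_mul]
    congr 1
    change (MonoidAlgebra.single g⁻¹ (1 : ℂ)).coeff u⁻¹ = _
    rw [MonoidAlgebra.coeff_single, Finsupp.single_apply]
  rw [h1] at h2
  simpa using h2.symm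

omit [Fintype Γ] in
/-- Every irreducible character is afforded by a matrix representation whose commutant
consists of scalars. -/
theorem exists_matrix {χ : Γ → ℂ} (h : χ ∈ IrrC Γ) :
    ∃ n : ℕ, 0 < n ∧ ∃ ρ : Γ →* Matrix (Fin n) (Fin n) ℂ, (∀ g, χ g = (ρ g).trace) ∧
      ∀ X : Matrix (Fin n) (Fin n) ℂ, (∀ g, X * ρ g = ρ g * X) → ∃ c : ℂ, X = c • 1 := by
  classical
  obtain ⟨V, hV, rfl⟩ := h
  let b := Module.finBasis ℂ V
  let e := LinearMap.toMatrixAlgEquiv b
  refine ⟨Module.finrank ℂ V, ?_, e.toAlgHom.toRingHom.toMonoidHom.comp V.ρ, ?_, ?_⟩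
  · obtain ⟨v, hv⟩ := simple_nonzero V
    have : Nontrivial V := ⟨⟨v, 0, hv⟩⟩
    exact Module.finrank_pos
  · intro g
    exact LinearMap.trace_eq_matrix_trace ℂ b (V.ρ g)
  · intro X hX
    have h1 : ∀ g v, e.symm X (V.ρ g v) = V.ρ g (e.symm X v) := by
      intro g v
      have h2 : e.symm X * V.ρ g = V.ρ g * e.symm X := by
        apply e.injective
        rw [map_mul, map_mul, e.apply_symm_apply]
        exact hX g
      exact LinearMap.congr_fun h2 v
    obtain ⟨c, hc⟩ := schur V hV (e.symm X) h1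
    refine ⟨c, ?_⟩
    have h3 : e.symm X = c • 1 := LinearMap.ext hc
    have h4 := congrArg e h3
    rw [e.apply_symm_apply, map_smul, map_one] at h4
    exact h4

theorem irr_finite : (IrrC Γ).Finite := by
  classical
  have hli : LinearIndependent ℂ (fun χ : IrrC Γ => (χ : Γ → ℂ)) := by
    rw [linearIndependent_iff']
    intro s c hc i hi
    have h1 : ∑ g, (∑ j ∈ s, c j • (j : Γ → ℂ)) g * (i : Γ → ℂ) g⁻¹ = 0 := by
      rw [hc]; simp
    have h2 : ∑ g, (∑ j ∈ s, c j • (j : Γ → ℂ)) g * (i : Γ → ℂ) g⁻¹ =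
        ∑ j ∈ s, c j * ∑ g, (j : Γ → ℂ) g * (i : Γ → ℂ) g⁻¹ := by
      simp only [Finset.sum_apply, Pi.smul_apply, smul_eq_mul, Finset.sum_mul, Finset.mul_sum]
      rw [Finset.sum_comm]
      simp only [mul_assoc]
    rw [h2, Finset.sum_eq_single i] at h1
    · rw [irr_norm i.2] at h1
      have : (Fintype.card Γ : ℂ) ≠ 0 := by exact_mod_cast Fintype.card_ne_zero
      exact (mul_eq_zero.1 h1).resolve_right this
    · intro j _ hj
      rw [irr_orth j.2 i.2 (fun h => hj (Subtype.ext h)), mul_zero]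
    · intro h; exact absurd hi h
  have : Finite (IrrC Γ) := hli.finite
  exact Set.toFinite _

end basic

end Pool.Agent.W367.SN
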