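import Pool.Agent.W367.SN.Count

set_option autoImplicit false

namespace Pool.Agent.W367.SN
open Complex

theorem trace_idem {n : ℕ} (P : Matrix (Fin n) (Fin n) ℂ) (h : P * P = P) :
    ∃ k : ℕ, P.trace = k := by
  have h1 : IsIdempotentElem (Matrix.toLin' P) := by
    have : Matrix.toLin' (P * P) = Matrix.toLin' P * Matrix.toLin' P := Matrix.toLin'_mul P P
    rw [h] at this
    exact this.symm
  have h2 := (LinearMap.IsIdempotentElem.isProj_range _ h1).trace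
  rw [Matrix.trace_toLin'_eq] at h2
  exact ⟨_, h2⟩

theorem sum_pow {n : ℕ} (Y : Matrix (Fin n) (Fin n) ℂ) (h : Y ^ 4 = 1) :
    ∃ k : ℕ, (n : ℂ) + Y.trace + (Y ^ 2).trace + (Y ^ 3).trace = 4 * k := by
  set S : Matrix (Fin n) (Fin n) ℂ := 1 + Y + Y ^ 2 + Y ^ 3 with hS
  have h1 : Y * S = S := by
    rw [hS, mul_add, mul_add, mul_add, ← pow_succ', ← pow_succ', mul_one]
    norm_num
    rw [h, ← pow_two]
    abel
  have h2 : S * S = (4 : ℂ) • S := by
    have e2 : Y ^ 2 * S = S := by rw [pow_two, mul_assoc, h1, h1]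
    have e3 : Y ^ 3 * S = S := by rw [pow_succ, mul_assoc, h1, e2]
    have : S * S = 1 * S + Y * S + Y ^ 2 * S + Y ^ 3 * S := by
      rw [← add_mul, ← add_mul, ← add_mul]
    rw [this, h1, e2, e3, one_mul]
    have : (4 : ℂ) • S = S + S + S + S := by
      rw [show (4 : ℂ) = 1 + 1 + 1 + 1 by norm_num, add_smul, add_smul, add_smul, one_smul]
    rw [this]
  obtain ⟨k, hk⟩ := trace_idem ((1 / 4 : ℂ) • S) (by
    rw [smul_mul_smul_comm, h2, smul_smul]; norm_num)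
  refine ⟨k, ?_⟩
  rw [Matrix.trace_smul, smul_eq_mul] at hk
  have h3 : S.trace = (n : ℂ) + Y.trace + (Y ^ 2).trace + (Y ^ 3).trace := by
    rw [hS]; simp [Matrix.trace_add, Matrix.trace_one]
  rw [← h3, ← hk]; ring

theorem trace_ne {n : ℕ} (hn : Odd n) (T : Matrix (Fin n) (Fin n) ℂ) (h : T ^ 4 = 1) :
    T.trace ≠ 0 := by
  have key : ∀ c : ℂ, c ^ 4 = 1 → ∃ k : ℕ,
      (n : ℂ) + c * T.trace + c ^ 2 * (T ^ 2).trace + c ^ 3 * (T ^ 3).trace = 4 * k := by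
    intro c hc
    obtain ⟨k, hk⟩ := sum_pow (c • T) (by rw [smul_pow, hc, h, one_smul])
    refine ⟨k, ?_⟩
    rw [← hk, smul_pow, smul_pow, Matrix.trace_smul, Matrix.trace_smul, Matrix.trace_smul]
    rfl
  obtain ⟨k0, h0⟩ := key 1 (by norm_num)
  obtain ⟨k1, h1⟩ := key (-I) (by rw [neg_pow, I_pow_four]; norm_num)
  obtain ⟨k2, h2⟩ := key (-1) (by norm_num)
  obtain ⟨k3, h3⟩ := key I I_pow_four
  have i2 : I ^ 2 = -1 := I_sq
  have i3 : I ^ 3 = -I := by rw [pow_succ, I_sq]; ring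
  have e1 : (-I) ^ 2 = -1 := by rw [neg_sq, I_sq]
  have e2 : (-I) ^ 3 = I := by rw [pow_succ, neg_sq, I_sq]; ring
  rw [e1, e2] at h1
  rw [i2, i3] at h3
  intro ht
  rw [ht] at h0 h1 h2 h3
  have hsum : (n : ℂ) = k0 + k1 + k2 + k3 := by
    linear_combination (h0 + h1 + h2 + h3) / 4
  have hd : ((k0 : ℂ) - k2) + I * (k1 - k3) = 0 := by
    have hI : I * I = -1 := I_mul_I
    linear_combination (-(h0 - h2) - I * (h1 - h3)) / 4 + (T ^ 3).trace * (hI) / 2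
  have hre := congrArg Complex.re hd
  have him := congrArg Complex.im hd
  simp at hre him
  have r1 : (k0 : ℝ) = k2 := by linarith
  have r2 : (k1 : ℝ) = k3 := by linarith
  have r1' : k0 = k2 := by exact_mod_cast r1
  have r2' : k1 = k3 := by exact_mod_cast r2
  subst r1' r2'
  have : n = k0 + k1 + k0 + k1 := by exact_mod_cast hsum
  rcases hn with ⟨r, hr⟩
  omega

section
variable {M : Type} [Group M]

theorem odd_ne_zero {α : M → ℂ} (hα : α ∈ OddIrr M) (s : M) (hs : s ^ 4 = 1) : α s ≠ 0 := by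
  obtain ⟨hirr, m, hm, h1⟩ := hα
  obtain ⟨n, hn, ρ, hρ, _⟩ := exists_matrix hirr
  have hnm : n = m := by
    have h2 := hρ 1
    rw [h1, map_one, Matrix.trace_one, Fintype.card_fin] at h2
    exact_mod_cast h2.symm
  subst hnm
  rw [hρ]
  apply trace_ne hm
  rw [← map_pow, hs, map_one]

theorem irr_comp {Γ Γ' : Type} [Group Γ] [Group Γ'] [Fintype Γ] [Fintype Γ'] (e : Γ ≃* Γ')
    {χ : Γ' → ℂ} (h : χ ∈ IrrC Γ') : (fun g => χ (e g)) ∈ IrrC Γ := by
  obtain ⟨n, hn, ρ, hρ, _⟩ := exists_matrix h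
  have h1 : (fun g => χ (e g)) = fun g => ((ρ.comp e.toMonoidHom) g).trace := by
    funext g; exact hρ (e g)
  rw [h1]
  apply mem_irr_of_matrix
  have h2 : ∀ g : Γ, ((ρ.comp e.toMonoidHom) g).trace * ((ρ.comp e.toMonoidHom) g⁻¹).trace =
      χ (e g) * χ (e g)⁻¹ := by
    intro g
    rw [← map_inv, hρ, hρ]
    rfl
  rw [Finset.sum_congr rfl (fun g _ => h2 g)]
  have h3 := Equiv.sum_comp e.toEquiv (fun g => χ g * χ g⁻¹)
  change ∑ g, (fun g => χ g * χ g⁻¹) (e.toEquiv g) = _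
  rw [h3, irr_norm h, Fintype.card_congr e.toEquiv]

theorem card_comp {Γ Γ' : Type} [Group Γ] [Group Γ'] [Fintype Γ] [Fintype Γ'] (e : Γ ≃* Γ')
    (x : Γ) (Q : ℕ → Prop) :
    {χ : Γ → ℂ | χ ∈ IrrC Γ ∧ χ x ≠ 0 ∧ ∃ n : ℕ, χ 1 = n ∧ Q n}.ncard =
      {χ : Γ' → ℂ | χ ∈ IrrC Γ' ∧ χ (e x) ≠ 0 ∧ ∃ n : ℕ, χ 1 = n ∧ Q n}.ncard := by
  have h1 : {χ : Γ → ℂ | χ ∈ IrrC Γ ∧ χ x ≠ 0 ∧ ∃ n : ℕ, χ 1 = n ∧ Q n} =
      (fun (χ : Γ' → ℂ) (g : Γ) => χ (e g)) ''
        {χ : Γ' → ℂ | χ ∈ IrrC Γ' ∧ χ (e x) ≠ 0 ∧ ∃ n : ℕ, χ 1 = n ∧ Q n} := by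
    ext χ
    constructor
    · rintro ⟨hχ, hx, n, hn, hQ⟩
      refine ⟨fun g => χ (e.symm g), ⟨irr_comp e.symm hχ, ?_, n, ?_, hQ⟩, ?_⟩
      · simpa using hx
      · simpa using hn
      · funext g; simp
    · rintro ⟨χ, ⟨hχ, hx, n, hn, hQ⟩, rfl⟩
      refine ⟨irr_comp e hχ, hx, n, ?_, hQ⟩
      simpa using hn
  rw [h1, Set.ncard_image_of_injective]
  intro χ ψ h
  funext g
  have := congrFun h (e.symm g)
  simpa using this

theorem triv_odd [Fintype M] : (fun _ => 1 : M → ℂ) ∈ OddIrr M := by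
  refine ⟨?_, 1, odd_one, by norm_num⟩
  have h := mem_irr_of_matrix (Γ := M) (1 : M →* Matrix (Fin 1) (Fin 1) ℂ) (by simp)
  have h2 : (fun g : M => ((1 : M →* Matrix (Fin 1) (Fin 1) ℂ) g).trace) = fun _ => 1 := by
    funext g; simp
  rwa [h2] at h

end

/-- The counting contradiction. -/
theorem contradiction_of_counts {M L : Type} [Group M] [Fintype M] [Group L] [Fintype L]
    (s t : M) (s' t' : L) (hs : s ^ 4 = 1) (ht : t ^ 4 = 1) (hs' : s' ^ 4 = 1) (ht' : t' ^ 4 = 1)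
    (hL : ∀ β ∈ OddIrr L, β s' = β t')
    (hM : ∃ α ∈ OddIrr M, α s = - α t)
    (h0 : (E0 (Wr M) ⟨s, t, false⟩).ncard = (E0 (Wr L) ⟨s', t', false⟩).ncard)
    (h1 : (E1 (Wr M) ⟨s, t, false⟩).ncard = (E1 (Wr L) ⟨s', t', false⟩).ncard) : False := by
  classical
  have c0 := card_E0 s t (fun α hα => odd_ne_zero hα s hs) (fun α hα => odd_ne_zero hα t ht)
  have c0' := card_E0 s' t' (fun α hα => odd_ne_zero hα s' hs')
    (fun α hα => odd_ne_zero hα t' ht')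
  have c1 := card_E1 (M := M) s t
  have c1' := card_E1 (M := L) s' t'
  let A := (oddIrr_finite (M := M)).toFinset
  let B := (oddIrr_finite (M := L)).toFinset
  have hA : ∀ α, α ∈ A ↔ α ∈ OddIrr M := fun α => (oddIrr_finite (M := M)).mem_toFinset
  have hB : ∀ α, α ∈ B ↔ α ∈ OddIrr L := fun α => (oddIrr_finite (M := L)).mem_toFinset
  have a1 : (OddIrr M).ncard = A.card := Set.ncard_eq_toFinset_card _ oddIrr_finite
  have b1 : (OddIrr L).ncard = B.card := Set.ncard_eq_toFinset_card _ oddIrr_finite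
  have hab : A.card = B.card := by omega
  have k1 : (Prs L s' t').ncard = B.offDiag.card := by
    rw [← Set.ncard_coe_finset]
    congr 1
    ext ⟨α, β⟩
    simp only [Prs, Set.mem_ofPred_eq, Finset.mem_coe, Finset.mem_offDiag, hB]
    constructor
    · rintro ⟨h1, h2, h3, _⟩; exact ⟨h1, h2, h3⟩
    · rintro ⟨h1, h2, h3⟩
      refine ⟨h1, h2, h3, ?_⟩
      rw [hL α h1, hL β h2]
      have n1 := odd_ne_zero h1 t' ht'
      have n2 := odd_ne_zero h2 t' ht'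
      intro h
      have : 2 * (α t' * β t') = 0 := by linear_combination h
      rcases mul_eq_zero.1 this with h | h
      · norm_num at h
      · exact (mul_ne_zero n1 n2) h
  have k2 : (Prs M s t).ncard < A.offDiag.card := by
    rw [← Set.ncard_coe_finset]
    apply Set.ncard_lt_ncard _ (Finset.finite_toSet _)
    refine ⟨?_, ?_⟩
    · rintro ⟨α, β⟩ ⟨h1, h2, h3, _⟩
      simp only [Finset.mem_coe, Finset.mem_offDiag, hA]
      exact ⟨h1, h2, h3⟩
    · intro hsub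
      obtain ⟨α, hα, hst⟩ := hM
      have hne : (fun _ => 1 : M → ℂ) ≠ α := by
        rintro rfl
        norm_num at hst
      have hmem : ((fun _ => 1 : M → ℂ), α) ∈ (A.offDiag : Set ((M → ℂ) × (M → ℂ))) := by
        simp only [Finset.mem_coe, Finset.mem_offDiag, hA]
        exact ⟨triv_odd, hα, hne⟩
      have := (hsub hmem).2.2.2
      apply this
      simp [hst]
  rw [Finset.offDiag_card] at k1 k2
  rw [hab] at k2
  omega

end Pool.Agent.W367.SN
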