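import Pool.Agent.W367.SN.ChiA

set_option autoImplicit false

namespace Pool.Agent.W367.SN

/-- The wreath product of a subgroup, as a subgroup. -/
def wsub {M : Type} [Group M] (N : Subgroup M) : Subgroup (Wr M) where
  carrier := {w | w.a ∈ N ∧ w.b ∈ N}
  one_mem' := ⟨N.one_mem, N.one_mem⟩
  mul_mem' := by
    rintro ⟨a, b, e⟩ ⟨c, d, f⟩ ⟨h1, h2⟩ ⟨h3, h4⟩
    cases e
    · exact ⟨N.mul_mem h1 h3, N.mul_mem h2 h4⟩
    · exact ⟨N.mul_mem h1 h4, N.mul_mem h2 h3⟩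
  inv_mem' := by
    rintro ⟨a, b, e⟩ ⟨h1, h2⟩
    cases e
    · exact ⟨N.inv_mem h1, N.inv_mem h2⟩
    · exact ⟨N.inv_mem h2, N.inv_mem h1⟩

theorem mem_wsub {M : Type} [Group M] (N : Subgroup M) (w : Wr M) :
    w ∈ wsub N ↔ w.a ∈ N ∧ w.b ∈ N := Iff.rfl

/-- the wreath product of a subgroup -/
def wiso {M : Type} [Group M] (N : Subgroup M) : wsub N ≃* Wr N where
  toFun w := ⟨⟨w.1.a, w.2.1⟩, ⟨w.1.b, w.2.2⟩, w.1.e⟩
  invFun w := ⟨⟨w.a, w.b, w.e⟩, w.a.2, w.b.2⟩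
  left_inv _ := rfl
  right_inv _ := rfl
  map_mul' := by
    rintro ⟨⟨a, b, e⟩, ha, hb⟩ ⟨⟨c, d, f⟩, hc, hd⟩
    cases e <;> rfl

/-- centre times quaternion group -/
def N : Subgroup A where
  carrier := {g | g.left.x = 0 ∧ g.left.y = 0}
  one_mem' := ⟨rfl, rfl⟩
  mul_mem' := by
    rintro ⟨⟨x, y, z⟩, q⟩ ⟨⟨x', y', z'⟩, q'⟩ ⟨h1, h2⟩ ⟨h3, h4⟩
    change x = 0 at h1
    change y = 0 at h2
    change x' = 0 at h3
    change y' = 0 at h4
    subst h1 h2 h3 h4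
    constructor
    · change (0 : ZMod 3) + (mt q 0 0 * 0 + mt q 0 1 * 0) = 0
      ring
    · change (0 : ZMod 3) + (mt q 1 0 * 0 + mt q 1 1 * 0) = 0
      ring
  inv_mem' := by
    rintro ⟨⟨x, y, z⟩, q⟩ ⟨h1, h2⟩
    change x = 0 at h1
    change y = 0 at h2
    subst h1 h2
    constructor
    · change mt q⁻¹ 0 0 * (-0) + mt q⁻¹ 0 1 * (-0) = 0
      ring
    · change mt q⁻¹ 1 0 * (-0) + mt q⁻¹ 1 1 * (-0) = 0
      ring

instance (g : A) : Decidable (g ∈ N) :=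
  inferInstanceAs (Decidable (g.left.x = 0 ∧ g.left.y = 0))

theorem X0_mem : X0 ∈ N := by decide
theorem X1_mem : X1 ∈ N := by decide
theorem X2_mem : X2 ∈ N := by decide
theorem X3_mem : X3 ∈ N := by decide

set_option maxRecDepth 100000 in
theorem N_comm : ∀ g : A, g ∈ N → ∀ h : A, h ∈ N → g * h = h * g ∨ g * h = X0 * (h * g) := by
  decide +kernel

set_option maxRecDepth 100000 in
theorem X0_comm : ∀ g : A, g ∈ N → X0 * g = g * X0 := by
  decide +kernel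

theorem X0_eq : X0 = X1 * X2 * X1⁻¹ * X2⁻¹ := by decide +kernel
theorem X0_sq : X0 * X0 = 1 := by decide +kernel
theorem X23 : X2 * X3 = X1 := by decide +kernel

theorem odd_N {ν : N → ℂ} (h : ν ∈ OddIrr N) :
    ν ⟨X0, X0_mem⟩ * ν ⟨X1, X1_mem⟩ = ν ⟨X2, X2_mem⟩ * ν ⟨X3, X3_mem⟩ := by
  obtain ⟨hirr, m, hm, h1⟩ := h
  obtain ⟨n, hn, ρ, hρ, hcomm⟩ := exists_matrix hirr
  have hnm : n = m := by
    have h2 := hρ 1
    rw [h1, map_one, Matrix.trace_one, Fintype.card_fin] at h2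
    exact_mod_cast h2.symm
  subst hnm
  have : NeZero n := ⟨hn.ne'⟩
  set x0 : N := ⟨X0, X0_mem⟩ with hx0
  set x1 : N := ⟨X1, X1_mem⟩ with hx1
  set x2 : N := ⟨X2, X2_mem⟩ with hx2
  set x3 : N := ⟨X3, X3_mem⟩ with hx3
  obtain ⟨c, hc⟩ := hcomm (ρ x0) (by
    intro g
    rw [← map_mul, ← map_mul]
    congr 1
    exact Subtype.ext (X0_comm g.1 g.2))
  have hone : ∀ a b : ℂ, a • (1 : Matrix (Fin n) (Fin n) ℂ) = b • 1 → a = b := by
    intro a b hab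
    have := congrFun (congrFun hab 0) 0
    simpa using this
  have hc2 : c * c = 1 := by
    have e1 : ρ x0 * ρ x0 = 1 := by
      rw [← map_mul, show x0 * x0 = 1 from Subtype.ext X0_sq, map_one]
    rw [hc, smul_mul_smul_comm, one_mul] at e1
    apply hone
    rw [e1, one_smul]
  have hdet : (ρ x0).det = 1 := by
    have e1 : x0 = x1 * x2 * x1⁻¹ * x2⁻¹ := Subtype.ext X0_eq
    have e2 : (ρ x1).det * (ρ x1⁻¹).det = 1 := by
      rw [← Matrix.det_mul, ← map_mul, mul_inv_cancel, map_one, Matrix.det_one]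
    have e3 : (ρ x2).det * (ρ x2⁻¹).det = 1 := by
      rw [← Matrix.det_mul, ← map_mul, mul_inv_cancel, map_one, Matrix.det_one]
    rw [e1, map_mul, map_mul, map_mul, Matrix.det_mul, Matrix.det_mul, Matrix.det_mul]
    linear_combination (ρ x2).det * (ρ x2⁻¹).det * e2 + e3
  have hc1 : c = 1 := by
    rcases mul_self_eq_one_iff.1 hc2 with h | h
    · exact h
    · exfalso
      rw [hc, h, Matrix.det_smul, Matrix.det_one, mul_one, Fintype.card_fin,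
        hm.neg_one_pow] at hdet
      norm_num at hdet
  rw [hc1, one_smul] at hc
  have hall : ∀ g : N, ∃ c : ℂ, ρ g = c • 1 := by
    intro g
    apply hcomm
    intro k
    rcases N_comm g.1 g.2 k.1 k.2 with h | h
    · rw [← map_mul, ← map_mul]
      congr 1
      exact Subtype.ext h
    · have : g * k = x0 * (k * g) := Subtype.ext h
      rw [← map_mul, this, map_mul, hc, one_mul, map_mul]
  obtain ⟨c1, hc1'⟩ := hall x1
  obtain ⟨c2, hc2'⟩ := hall x2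
  obtain ⟨c3, hc3'⟩ := hall x3
  have e23 : c2 * c3 = c1 := by
    apply hone
    rw [← hc1', show x1 = x2 * x3 from Subtype.ext X23.symm, map_mul, hc2', hc3',
      smul_mul_smul_comm, one_mul]
  rw [hρ, hρ, hρ, hρ, hc, hc1', hc2', hc3']
  simp only [Matrix.trace_smul, Matrix.trace_one, Fintype.card_fin, smul_eq_mul]
  rw [← e23]
  ring

/-- the group `N wr C_2` -/
abbrev N0 : Subgroup (Wr A) := wsub N

theorem sE_mem : sE ∈ N0 := ⟨X0_mem, X1_mem⟩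
theorem tE_mem : tE ∈ N0 := ⟨X2_mem, X3_mem⟩

noncomputable instance : Fintype N := Fintype.ofFinite N
noncomputable instance : Fintype N0 := Fintype.ofFinite N0

theorem odd_N0 (β : N0 → ℂ) (h : β ∈ OddIrr N0) : β ⟨sE, sE_mem⟩ = β ⟨tE, tE_mem⟩ := by
  obtain ⟨hirr, m, hm, h1⟩ := h
  have h2 := irr_comp (wiso N).symm hirr
  have e1 : β ⟨sE, sE_mem⟩ = (fun g => β ((wiso N).symm g)) ⟨⟨X0, X0_mem⟩, ⟨X1, X1_mem⟩, false⟩ :=
    rfl
  have e2 : β ⟨tE, tE_mem⟩ = (fun g => β ((wiso N).symm g)) ⟨⟨X2, X2_mem⟩, ⟨X3, X3_mem⟩, false⟩ :=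
    rfl
  have h3 : (fun g => β ((wiso N).symm g)) 1 = m := by
    change β ((wiso N).symm 1) = m
    rw [map_one, h1]
  rw [e1, e2]
  rcases wr_classify h2 with ⟨α, hα, ε, _, hχ⟩ | ⟨α, hα, γ, hγ, _, hχ⟩
  · rw [hχ, ext_f, ext_f]
    apply odd_N
    refine ⟨hα, ?_⟩
    obtain ⟨k, hk, h4⟩ := irr_one hα
    refine ⟨k, ?_, h4⟩
    rw [hχ, one_wr, ext_f, h4] at h3
    have : k * k = m := by exact_mod_cast h3
    rw [← this] at hm
    exact (Nat.odd_mul.1 hm).1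
  · exfalso
    obtain ⟨k, hk, h4⟩ := irr_one hα
    obtain ⟨l, hl, h5⟩ := irr_one hγ
    rw [hχ, one_wr, ind_f, h4, h5] at h3
    have : k * l + l * k = m := by exact_mod_cast h3
    rw [← this, mul_comm l k] at hm
    rcases hm with ⟨r, hr⟩
    omega

end Pool.Agent.W367.SN
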