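import Pool.Agent.W367.SN.OddN

set_option autoImplicit false

namespace Pool.Agent.W367.SN

/-- functoriality of the wreath product -/
def wmap {M L : Type} [Group M] [Group L] (f : M →* L) : Wr M →* Wr L where
  toFun w := ⟨f w.a, f w.b, w.e⟩
  map_one' := by simp [Wr.one_def]
  map_mul' := by
    rintro ⟨a, b, e⟩ ⟨c, d, g⟩
    cases e <;> simp

/-- base elements with both coordinates in a set -/
def wset {M : Type} (S : Set M) : Set (Wr M) := {w | w.e = false ∧ w.a ∈ S ∧ w.b ∈ S}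

section generic
variable {M : Type} [Group M]

theorem pow_ff (a b : M) (n : ℕ) : (⟨a, b, false⟩ : Wr M) ^ n = ⟨a ^ n, b ^ n, false⟩ := by
  induction n with
  | zero => simp [Wr.one_def]
  | succ n ih => rw [pow_succ, ih, Wr.mul_ff, pow_succ, pow_succ]

theorem commute_ff {a b c d : M} (h : Commute (⟨a, b, false⟩ : Wr M) ⟨c, d, false⟩) :
    Commute a c ∧ Commute b d := by
  have h1 : (⟨a, b, false⟩ : Wr M) * ⟨c, d, false⟩ = ⟨c, d, false⟩ * ⟨a, b, false⟩ := h
  rw [Wr.mul_ff, Wr.mul_ff, Wr.mk.injEq] at h1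
  exact ⟨h1.1, h1.2.1⟩

/-- the detection property -/
def Det (S : Set M) (K : Subgroup M) : Prop :=
  ∀ u ∈ S, ∀ v ∈ S, ∀ h : M, (∀ m m' : ℕ, Commute u ((u ^ m * (h * v * h⁻¹) ^ m') ^ 4)) → h ∈ K

theorem det_wr {S : Set M} {K : Subgroup M} (hS : Det S K) : Det (wset S) (wsub K) := by
  rintro ⟨u1, u2, e⟩ ⟨he, hu1, hu2⟩ ⟨v1, v2, e'⟩ ⟨he', hv1, hv2⟩ ⟨h1, h2, e''⟩ hc
  change e = false at he
  change e' = false at he'
  subst he he'
  cases e''
  · have hc' : ∀ m m' : ℕ, Commute u1 ((u1 ^ m * (h1 * v1 * h1⁻¹) ^ m') ^ 4) ∧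
        Commute u2 ((u2 ^ m * (h2 * v2 * h2⁻¹) ^ m') ^ 4) := by
      intro m m'
      have := hc m m'
      simp only [Wr.inv_ff, Wr.mul_ff, pow_ff] at this
      exact commute_ff this
    exact ⟨hS u1 hu1 v1 hv1 h1 (fun m m' => (hc' m m').1),
      hS u2 hu2 v2 hv2 h2 (fun m m' => (hc' m m').2)⟩
  · have hc' : ∀ m m' : ℕ, Commute u1 ((u1 ^ m * (h1 * v2 * h1⁻¹) ^ m') ^ 4) ∧
        Commute u2 ((u2 ^ m * (h2 * v1 * h2⁻¹) ^ m') ^ 4) := by
      intro m m'
      have := hc m m'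
      simp only [Wr.inv_tt, Wr.mul_tt, Wr.mul_ff, pow_ff, Bool.not_false, Bool.not_true] at this
      exact commute_ff this
    exact ⟨hS u1 hu1 v2 hv2 h1 (fun m m' => (hc' m m').1),
      hS u2 hu2 v1 hv1 h2 (fun m m' => (hc' m m').2)⟩

/-- the exponent property -/
def Exp4 (S : Set M) : Prop :=
  ∀ u ∈ S, ∀ v ∈ S, ∀ h : M, ∀ m m' : ℕ, (u ^ m * (h * v * h⁻¹) ^ m') ^ 4 = 1

theorem exp4_wr {S : Set M} (hS : Exp4 S) : Exp4 (wset S) := by
  rintro ⟨u1, u2, e⟩ ⟨he, hu1, hu2⟩ ⟨v1, v2, e'⟩ ⟨he', hv1, hv2⟩ ⟨h1, h2, e''⟩ m m'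
  change e = false at he
  change e' = false at he'
  subst he he'
  cases e''
  · simp only [Wr.inv_ff, Wr.mul_ff, pow_ff]
    rw [hS u1 hu1 v1 hv1, hS u2 hu2 v2 hv2]
    rfl
  · simp only [Wr.inv_tt, Wr.mul_tt, Wr.mul_ff, pow_ff, Bool.not_false, Bool.not_true]
    rw [hS u1 hu1 v2 hv2, hS u2 hu2 v1 hv1]
    rfl

/-- exponent three on the kernel -/
def Ker3 {L : Type} [Group L] (f : M →* L) : Prop := ∀ r, f r = 1 → r ^ 3 = 1

theorem ker3_wr {L : Type} [Group L] {f : M →* L} (hf : Ker3 f) : Ker3 (wmap f) := by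
  rintro ⟨a, b, e⟩ h
  have h1 : (⟨f a, f b, e⟩ : Wr L) = ⟨1, 1, false⟩ := h
  rw [Wr.mk.injEq] at h1
  obtain ⟨h2, h3, rfl⟩ := h1
  rw [pow_ff, hf a h2, hf b h3]
  rfl

/-- decomposition property -/
def Dec (S Z P : Set M) (K : Subgroup M) : Prop :=
  (∀ z ∈ Z, ∀ u ∈ S, Commute u z) ∧ ∀ h ∈ K, ∃ z ∈ Z, ∃ p ∈ P, h = z * p

/-- all wreath elements with coordinates in a set -/
def wall {M : Type} (P : Set M) : Set (Wr M) := {w | w.a ∈ P ∧ w.b ∈ P}

theorem dec_wr {S Z P : Set M} {K : Subgroup M} (h : Dec S Z P K) :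
    Dec (wset S) (wset Z) (wall P) (wsub K) := by
  constructor
  · rintro ⟨z1, z2, e⟩ ⟨he, hz1, hz2⟩ ⟨u1, u2, e'⟩ ⟨he', hu1, hu2⟩
    change e = false at he
    change e' = false at he'
    subst he he'
    change (⟨u1, u2, false⟩ : Wr M) * ⟨z1, z2, false⟩ = ⟨z1, z2, false⟩ * ⟨u1, u2, false⟩
    rw [Wr.mul_ff, Wr.mul_ff, (h.1 z1 hz1 u1 hu1).eq, (h.1 z2 hz2 u2 hu2).eq]
  · rintro ⟨a, b, e⟩ ⟨ha, hb⟩
    obtain ⟨z1, hz1, p1, hp1, h1⟩ := h.2 a ha
    obtain ⟨z2, hz2, p2, hp2, h2⟩ := h.2 b hb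
    refine ⟨⟨z1, z2, false⟩, ⟨rfl, hz1, hz2⟩, ⟨p1, p2, e⟩, ⟨hp1, hp2⟩, ?_⟩
    rw [Wr.mul_ff, ← h1, ← h2]

end generic

/-- chains in finite `p`-groups -/
theorem chain_pgroup {Γ : Type} [Group Γ] [Finite Γ] (D : Subgroup Γ) (hD : IsPGroup 2 D) :
    ∀ k : ℕ, ∀ X : Subgroup Γ, X ≤ D → Nat.card D ≤ Nat.card X + k →
    ∃ n : ℕ, ∃ c : ℕ → Subgroup Γ, c 0 = X ∧ c n = D ∧
      ∀ i < n, c i ≤ c (i + 1) ∧ ((c i).subgroupOf (c (i + 1))).Normal := by
  have : Fact (Nat.Prime 2) := ⟨Nat.prime_two⟩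
  have hnil : Group.IsNilpotent D := hD.isNilpotent
  have hnc : NormalizerCondition D := Group.normalizerCondition_of_isNilpotent
  intro k
  induction k with
  | zero =>
    intro X hX hcard
    have : X = D := Subgroup.eq_of_le_of_card_ge hX (by simpa using hcard)
    subst this
    exact ⟨0, fun _ => X, rfl, rfl, fun i hi => absurd hi (Nat.not_lt_zero i)⟩
  | succ k ih =>
    intro X hX hcard
    by_cases hXD : X = D
    · subst hXD
      exact ⟨0, fun _ => X, rfl, rfl, fun i hi => absurd hi (Nat.not_lt_zero i)⟩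
    · have hlt : X.subgroupOf D < ⊤ := by
        rw [lt_top_iff_ne_top]
        intro h
        rw [Subgroup.subgroupOf_eq_top] at h
        exact hXD (le_antisymm hX h)
      have h1 := hnc _ hlt
      obtain ⟨d, hd, hd'⟩ := SetLike.exists_of_lt h1
      let X' : Subgroup Γ := Subgroup.normalizer (X : Set Γ) ⊓ D
      have hX' : X ≤ X' := le_inf Subgroup.le_normalizer hX
      have hdX' : (d : Γ) ∈ X' := by
        refine ⟨?_, d.2⟩
        rw [Subgroup.mem_normalizer_iff] at hd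
        change (d : Γ) ∈ Subgroup.normalizer (X : Set Γ)
        rw [Subgroup.mem_normalizer_iff]
        intro h
        constructor
        · intro hh
          have h2 := (hd ⟨h, hX hh⟩).1 (by rw [Subgroup.mem_subgroupOf]; exact hh)
          rw [Subgroup.mem_subgroupOf] at h2
          exact h2
        · intro hh
          have h3 : h ∈ D := by
            have h4 : (d : Γ)⁻¹ * ((d : Γ) * h * (d : Γ)⁻¹) * (d : Γ) ∈ D :=
              D.mul_mem (D.mul_mem (D.inv_mem d.2) (hX hh)) d.2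
            have h5 : (d : Γ)⁻¹ * ((d : Γ) * h * (d : Γ)⁻¹) * (d : Γ) = h := by group
            rwa [h5] at h4
          have h2 := (hd ⟨h, h3⟩).2 (by rw [Subgroup.mem_subgroupOf]; exact hh)
          rw [Subgroup.mem_subgroupOf] at h2
          exact h2
      have hdX : (d : Γ) ∉ X := by
        intro h
        exact hd' (by rw [Subgroup.mem_subgroupOf]; exact h)
      have hcard' : Nat.card D ≤ Nat.card X' + k := by
        have hlt' : Nat.card X < Nat.card X' := by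
          by_contra hcon
          push Not at hcon
          have := Subgroup.eq_of_le_of_card_ge hX' hcon
          rw [← this] at hdX'
          exact hdX hdX'
        omega
      obtain ⟨n, c, hc0, hcn, hc⟩ := ih X' inf_le_right hcard'
      let c' : ℕ → Subgroup Γ := fun i => if i = 0 then X else c (i - 1)
      have e0 : c' 0 = X := rfl
      have e1 : c' (0 + 1) = X' := by simp [c', hc0]
      have es : ∀ j, c' (j + 1) = c j := by intro j; simp [c']
      refine ⟨n + 1, c', rfl, by rw [es, hcn], ?_⟩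
      intro i hi
      rcases Nat.eq_zero_or_pos i with rfl | hpos
      · rw [e0, e1]
        refine ⟨hX', ?_⟩
        refine ⟨fun u hu g => ?_⟩
        rw [Subgroup.mem_subgroupOf] at hu ⊢
        have hg : (g : Γ) ∈ Subgroup.normalizer (X : Set Γ) := g.2.1
        rw [Subgroup.mem_normalizer_iff] at hg
        exact (hg u).1 hu
      · obtain ⟨j, rfl⟩ : ∃ j, i = j + 1 := ⟨i - 1, by omega⟩
        rw [es, es]
        exact hc j (by omega)

/-- The key consequence of subnormality. -/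
theorem comm_of_chain {Γ L : Type} [Group Γ] [Group L] (f : Γ →* L) (hf : Ker3 f) (x : Γ)
    (hx : x ^ 4 = 1) (n : ℕ) (c : ℕ → Subgroup Γ) (h0 : c 0 = Subgroup.zpowers x)
    (hc : ∀ i < n, c i ≤ c (i + 1) ∧ ((c i).subgroupOf (c (i + 1))).Normal) :
    ∀ i ≤ n, x ∈ c i ∧ ∀ r ∈ c i, f r = 1 → Commute x r := by
  intro i
  induction i with
  | zero =>
    intro _
    rw [h0]
    refine ⟨Subgroup.mem_zpowers x, fun r hr _ => ?_⟩
    obtain ⟨k, rfl⟩ := hr
    exact (Commute.refl x).zpow_right k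
  | succ i ih =>
    intro hi
    obtain ⟨hxi, hcomm⟩ := ih (by omega)
    obtain ⟨hle, hnorm⟩ := hc i (by omega)
    refine ⟨hle hxi, fun r hr hfr => ?_⟩
    have h1 : r * x * r⁻¹ ∈ c i := by
      have := hnorm.conj_mem ⟨x, hle hxi⟩ (by rw [Subgroup.mem_subgroupOf]; exact hxi) ⟨r, hr⟩
      rw [Subgroup.mem_subgroupOf] at this
      exact this
    set u := x⁻¹ * (r * x * r⁻¹) with hu
    have hu1 : u ∈ c i := (c i).mul_mem ((c i).inv_mem hxi) h1
    have hfu : f u = 1 := by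
      rw [hu, map_mul, map_mul, map_mul, map_inv, map_inv, hfr]; group
    have hcu := hcomm u hu1 hfu
    have h2 : r * x * r⁻¹ = x * u := by rw [hu]; group
    have h3 : (x * u) ^ 4 = 1 := by
      rw [← h2, conj_pow, hx]; group
    rw [hcu.mul_pow, hx, one_mul] at h3
    have h4 := hf u hfu
    have h5 : u = 1 := by
      have : u = u ^ 4 * (u ^ 3)⁻¹ := by group
      rw [this, h3, h4]; group
    rw [h5, mul_one] at h2
    have h6 : r * x = x * r := by
      have := congrArg (· * r) h2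
      simpa using this
    exact h6.symm

end Pool.Agent.W367.SN
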