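import Pool.Agent.W367.SN.Irr

set_option autoImplicit false

namespace Pool.Agent.W367.SN

/-- The wreath product of `M` with a group of order two. -/
@[ext]
structure Wr (M : Type) where
  a : M
  b : M
  e : Bool
deriving DecidableEq

namespace Wr

variable {M : Type} [Group M]

instance : One (Wr M) := ⟨⟨1, 1, false⟩⟩
instance : Mul (Wr M) :=
  ⟨fun x y => ⟨x.a * (if x.e then y.b else y.a), x.b * (if x.e then y.a else y.b), xor x.e y.e⟩⟩
instance : Inv (Wr M) :=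
  ⟨fun x => ⟨if x.e then x.b⁻¹ else x.a⁻¹, if x.e then x.a⁻¹ else x.b⁻¹, x.e⟩⟩

theorem one_def : (1 : Wr M) = ⟨1, 1, false⟩ := rfl
theorem mul_def (x y : Wr M) : x * y =
    ⟨x.a * (if x.e then y.b else y.a), x.b * (if x.e then y.a else y.b), xor x.e y.e⟩ := rfl
theorem inv_def (x : Wr M) : x⁻¹ =
  ⟨if x.e then x.b⁻¹ else x.a⁻¹, if x.e then x.a⁻¹ else x.b⁻¹, x.e⟩ := rfl

instance : Group (Wr M) :=
  Group.ofLeftAxioms
    (by
      rintro ⟨a, b, e⟩ ⟨c, d, f⟩ ⟨u, v, w⟩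
      cases e <;> cases f <;> cases w <;> simp [mul_def, mul_assoc])
    (by
      rintro ⟨a, b, e⟩
      simp [mul_def, one_def])
    (by
      rintro ⟨a, b, e⟩
      cases e <;> simp [mul_def, one_def, inv_def])

@[simp] theorem mul_ff (a b c d : M) (f : Bool) :
    (⟨a, b, false⟩ : Wr M) * ⟨c, d, f⟩ = ⟨a * c, b * d, f⟩ := by simp [mul_def]
@[simp] theorem mul_tt (a b c d : M) (f : Bool) :
    (⟨a, b, true⟩ : Wr M) * ⟨c, d, f⟩ = ⟨a * d, b * c, !f⟩ := by simp [mul_def]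
@[simp] theorem inv_ff (a b : M) : (⟨a, b, false⟩ : Wr M)⁻¹ = ⟨a⁻¹, b⁻¹, false⟩ := by
  simp [inv_def]
@[simp] theorem inv_tt (a b : M) : (⟨a, b, true⟩ : Wr M)⁻¹ = ⟨b⁻¹, a⁻¹, true⟩ := by
  simp [inv_def]

/-- `Wr M` as a product. -/
def equiv (M : Type) : Wr M ≃ M × M × Bool where
  toFun x := (x.a, x.b, x.e)
  invFun x := ⟨x.1, x.2.1, x.2.2⟩
  left_inv _ := rfl
  right_inv _ := rfl

instance {M : Type} [Fintype M] : Fintype (Wr M) := Fintype.ofEquiv _ (equiv M).symm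

theorem sum_eq {M : Type} [Fintype M] {β : Type} [AddCommMonoid β] (F : Wr M → β) :
    ∑ w, F w = ∑ a, ∑ b, (F ⟨a, b, true⟩ + F ⟨a, b, false⟩) := by
  rw [← Equiv.sum_comp (equiv M).symm, Fintype.sum_prod_type]
  apply Finset.sum_congr rfl
  intro a _
  rw [Fintype.sum_prod_type]
  apply Finset.sum_congr rfl
  intro b _
  simp [equiv]

theorem card_eq {M : Type} [Fintype M] : Fintype.card (Wr M) = 2 * Fintype.card M ^ 2 := by
  rw [Fintype.card_congr (equiv M)]
  simp only [Fintype.card_prod, Fintype.card_bool]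
  ring

end Wr

section chars

variable {M : Type} [Group M]

/-- the extension of `α × α` to the wreath product -/
def ext (ε : ℂ) (α : M → ℂ) : Wr M → ℂ
  | ⟨a, b, false⟩ => α a * α b
  | ⟨a, b, true⟩ => ε * α (a * b)

/-- the character induced from `α × β` -/
def ind (α β : M → ℂ) : Wr M → ℂ
  | ⟨a, b, false⟩ => α a * β b + β a * α b
  | ⟨_, _, true⟩ => 0

@[simp] theorem ext_f (ε : ℂ) (α : M → ℂ) (a b : M) : ext ε α ⟨a, b, false⟩ = α a * α b := rfl
@[simp] theorem ext_t (ε : ℂ) (α : M → ℂ) (a b : M) : ext ε α ⟨a, b, true⟩ = ε * α (a * b) := rfl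
omit [Group M] in
@[simp] theorem ind_f (α β : M → ℂ) (a b : M) :
    ind α β ⟨a, b, false⟩ = α a * β b + β a * α b := rfl
omit [Group M] in
@[simp] theorem ind_t (α β : M → ℂ) (a b : M) : ind α β ⟨a, b, true⟩ = 0 := rfl

/-- the flip matrix -/
def flip (n : ℕ) : Matrix (Fin n × Fin n) (Fin n × Fin n) ℂ :=
  fun i j => if i = (j.2, j.1) then 1 else 0

open Matrix Kronecker

theorem flip_mul (n : ℕ) (A : Matrix (Fin n × Fin n) (Fin n × Fin n) ℂ) (i j : Fin n × Fin n) :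
    (flip n * A) i j = A (i.2, i.1) j := by
  rw [Matrix.mul_apply, Finset.sum_eq_single (i.2, i.1)]
  · simp [flip]
  · intro b _ hb
    have : flip n i b = 0 := by
      simp only [flip]
      rw [if_neg]
      rintro rfl
      exact hb rfl
    rw [this, zero_mul]
  · intro h; exact absurd (Finset.mem_univ _) h

theorem mul_flip (n : ℕ) (A : Matrix (Fin n × Fin n) (Fin n × Fin n) ℂ) (i j : Fin n × Fin n) :
    (A * flip n) i j = A i (j.2, j.1) := by
  rw [Matrix.mul_apply, Finset.sum_eq_single (j.2, j.1)]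
  · simp [flip]
  · intro b _ hb
    have : flip n b j = 0 := by
      simp only [flip]
      rw [if_neg]
      intro h
      exact hb h
    rw [this, mul_zero]
  · intro h; exact absurd (Finset.mem_univ _) h

theorem flip_sq (n : ℕ) : flip n * flip n = 1 := by
  ext i j
  rw [flip_mul]
  simp only [flip, Matrix.one_apply, Prod.ext_iff]
  congr 1
  rw [eq_iff_iff]; tauto

theorem flip_kron (n : ℕ) (A B : Matrix (Fin n) (Fin n) ℂ) :
    flip n * (A ⊗ₖ B) = (B ⊗ₖ A) * flip n := by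
  ext i j
  rw [flip_mul, mul_flip]
  simp [Matrix.kroneckerMap_apply, mul_comm]

theorem trace_kron_flip (n : ℕ) (A B : Matrix (Fin n) (Fin n) ℂ) :
    ((A ⊗ₖ B) * flip n).trace = (A * B).trace := by
  simp only [Matrix.trace, Matrix.diag, mul_flip]
  simp only [Matrix.mul_apply, Matrix.kroneckerMap_apply]
  rw [Fintype.sum_prod_type]

/-- the matrix representation affording `ext ε` -/
noncomputable def extRep {n : ℕ} (ρ : M →* Matrix (Fin n) (Fin n) ℂ) (ε : ℂ) (hε : ε * ε = 1) :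
    Wr M →* Matrix (Fin n × Fin n) (Fin n × Fin n) ℂ where
  toFun w := if w.e then ε • ((ρ w.a ⊗ₖ ρ w.b) * flip n) else ρ w.a ⊗ₖ ρ w.b
  map_one' := by simp [Wr.one_def]
  map_mul' := by
    rintro ⟨a, b, e⟩ ⟨c, d, f⟩
    cases e <;> cases f
    · simp [Matrix.mul_kronecker_mul]
    · simp [Matrix.mul_kronecker_mul, mul_assoc]
    · simp only [Wr.mul_tt, Bool.not_false, if_true, Bool.false_eq_true, if_false, map_mul,
        Matrix.mul_kronecker_mul, smul_mul_assoc, mul_assoc, flip_kron]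
    · simp only [Wr.mul_tt, Bool.not_true, if_true, Bool.false_eq_true, if_false, map_mul,
        Matrix.mul_kronecker_mul, smul_mul_assoc, mul_smul_comm, smul_smul, hε, one_smul]
      rw [mul_assoc, ← mul_assoc (flip n), flip_kron, mul_assoc, flip_sq, mul_one]

theorem extRep_trace {n : ℕ} (ρ : M →* Matrix (Fin n) (Fin n) ℂ) (ε : ℂ) (hε : ε * ε = 1)
    (w : Wr M) : (extRep ρ ε hε w).trace = ext ε (fun g => (ρ g).trace) w := by
  rcases w with ⟨a, b, e⟩
  cases e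
  · simp [extRep, Matrix.trace_kronecker]
  · simp [extRep, trace_kron_flip]

/-- the matrix representation affording `ind` -/
noncomputable def indRep {n m : ℕ} (ρ : M →* Matrix (Fin n) (Fin n) ℂ)
    (τ : M →* Matrix (Fin m) (Fin m) ℂ) :
    Wr M →* Matrix ((Fin n × Fin m) ⊕ (Fin n × Fin m)) ((Fin n × Fin m) ⊕ (Fin n × Fin m)) ℂ where
  toFun w := if w.e then Matrix.fromBlocks 0 (ρ w.a ⊗ₖ τ w.b) (ρ w.b ⊗ₖ τ w.a) 0
    else Matrix.fromBlocks (ρ w.a ⊗ₖ τ w.b) 0 0 (ρ w.b ⊗ₖ τ w.a)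
  map_one' := by simp [Wr.one_def]
  map_mul' := by
    rintro ⟨a, b, e⟩ ⟨c, d, f⟩
    cases e <;> cases f <;>
      simp [Matrix.mul_kronecker_mul, Matrix.fromBlocks_multiply]

theorem trace_blocks {ι : Type} [Fintype ι] (A B C D : Matrix ι ι ℂ) :
    (Matrix.fromBlocks A B C D).trace = A.trace + D.trace := by
  simp [Matrix.trace, Fintype.sum_sum_type]

theorem indRep_trace {n m : ℕ} (ρ : M →* Matrix (Fin n) (Fin n) ℂ)
    (τ : M →* Matrix (Fin m) (Fin m) ℂ) (w : Wr M) :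
    (indRep ρ τ w).trace = ind (fun g => (ρ g).trace) (fun g => (τ g).trace) w := by
  rcases w with ⟨a, b, e⟩
  cases e
  · simp [indRep, Matrix.trace_kronecker, trace_blocks]
    ring
  · simp [indRep, trace_blocks]

variable [Fintype M]

theorem sum_mul_trans (f : M → ℂ) : ∑ a, ∑ b, f (a * b) = Fintype.card M * ∑ c, f c := by
  have : ∀ a, ∑ b, f (a * b) = ∑ c, f c := fun a => Equiv.sum_comp (Equiv.mulLeft a) f
  simp [this]

theorem ext_mem {α : M → ℂ} (hα : α ∈ IrrC M) (ε : ℂ) (hε : ε * ε = 1) :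
    ext ε α ∈ IrrC (Wr M) := by
  obtain ⟨n, _, ρ, hρ, _⟩ := exists_matrix hα
  have hα' : α = fun g => (ρ g).trace := funext hρ
  have h1 : (fun w => (extRep ρ ε hε w).trace) = ext ε α := by
    rw [hα']; exact funext (extRep_trace ρ ε hε)
  rw [← h1]
  apply mem_irr_of_matrix
  have h2 : ∀ w, (extRep ρ ε hε w).trace = ext ε α w := fun w => congrFun h1 w
  simp only [h2]
  rw [Wr.sum_eq, Wr.card_eq]
  simp only [Wr.inv_tt, Wr.inv_ff, ext_t, ext_f]
  have h3 : ∀ a b : M, ε * α (a * b) * (ε * α (b⁻¹ * a⁻¹)) = α (a * b) * α (a * b)⁻¹ := by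
    intro a b
    rw [_root_.mul_inv_rev]
    linear_combination (α (a * b) * α (b⁻¹ * a⁻¹)) * hε
  have h4 : ∀ a b : M, α a * α b * (α a⁻¹ * α b⁻¹) = (α a * α a⁻¹) * (α b * α b⁻¹) := by
    intro a b; ring
  simp only [h3, h4, Finset.sum_add_distrib]
  rw [sum_mul_trans (fun c => α c * α c⁻¹), irr_norm hα]
  simp only [← Finset.mul_sum, ← Finset.sum_mul, irr_norm hα]
  push_cast
  ring

theorem ind_mem {α β : M → ℂ} (hα : α ∈ IrrC M) (hβ : β ∈ IrrC M) (hne : α ≠ β) :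
    ind α β ∈ IrrC (Wr M) := by
  obtain ⟨n, _, ρ, hρ, _⟩ := exists_matrix hα
  obtain ⟨m, _, τ, hτ, _⟩ := exists_matrix hβ
  have hα' : α = fun g => (ρ g).trace := funext hρ
  have hβ' : β = fun g => (τ g).trace := funext hτ
  have h1 : (fun w => (indRep ρ τ w).trace) = ind α β := by
    rw [hα', hβ']; exact funext (indRep_trace ρ τ)
  rw [← h1]
  apply mem_irr_of_matrix
  have h2 : ∀ w, (indRep ρ τ w).trace = ind α β w := fun w => congrFun h1 w
  simp only [h2]
  rw [Wr.sum_eq, Wr.card_eq]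
  simp only [Wr.inv_tt, Wr.inv_ff, ind_t, ind_f, mul_zero, zero_add]
  have h4 : ∀ a b : M, (α a * β b + β a * α b) * (α a⁻¹ * β b⁻¹ + β a⁻¹ * α b⁻¹) =
      (α a * α a⁻¹) * (β b * β b⁻¹) + (α a * β a⁻¹) * (β b * α b⁻¹) +
      (β a * α a⁻¹) * (α b * β b⁻¹) + (β a * β a⁻¹) * (α b * α b⁻¹) := by
    intro a b; ring
  simp only [h4, Finset.sum_add_distrib, ← Finset.mul_sum, ← Finset.sum_mul, irr_norm hα,
    irr_norm hβ, irr_orth hα hβ hne, irr_orth hβ hα hne.symm]
  push_cast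
  ring

/-- completeness for a direct product -/
theorem prod_complete (F : M → M → ℂ) (h1 : ∀ a b u, F (u * a * u⁻¹) b = F a b)
    (h2 : ∀ a b u, F a (u * b * u⁻¹) = F a b)
    (h : ∀ α ∈ IrrC M, ∀ β ∈ IrrC M, ∑ a, ∑ b, F a b * (α a⁻¹ * β b⁻¹) = 0) (a b : M) :
    F a b = 0 := by
  have k1 : ∀ β ∈ IrrC M, (fun a => ∑ b, F a b * β b⁻¹) = 0 := by
    intro β hβ
    apply irr_complete
    · intro g u
      simp only [h1]
    · intro α hα
      rw [← h α hα β hβ]
      apply Finset.sum_congr rfl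
      intro a _
      rw [Finset.sum_mul]
      apply Finset.sum_congr rfl
      intro b _
      ring
  have k2 : (fun b => F a b) = 0 := by
    apply irr_complete
    · intro g u; exact h2 a g u
    · intro β hβ
      exact congrFun (k1 β hβ) a
  exact congrFun k2 b

/-- Classification of the irreducible characters of the wreath product. -/
theorem wr_classify {χ : Wr M → ℂ} (hχ : χ ∈ IrrC (Wr M)) :
    (∃ α ∈ IrrC M, ∃ ε : ℂ, (ε = 1 ∨ ε = -1) ∧ χ = ext ε α) ∨
      ∃ α ∈ IrrC M, ∃ β ∈ IrrC M, α ≠ β ∧ χ = ind α β := by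
  by_contra hcon
  push Not at hcon
  obtain ⟨hc1, hc2⟩ := hcon
  have o1 : ∀ α ∈ IrrC M, ∀ ε : ℂ, (ε = 1 ∨ ε = -1) →
      ∑ w, χ w * ext ε α w⁻¹ = 0 := by
    intro α hα ε hε
    apply irr_orth hχ (ext_mem hα ε _) (hc1 α hα ε hε)
    rcases hε with rfl | rfl <;> norm_num
  have o2 : ∀ α ∈ IrrC M, ∀ β ∈ IrrC M, α ≠ β → ∑ w, χ w * ind α β w⁻¹ = 0 := by
    intro α hα β hβ hne
    exact irr_orth hχ (ind_mem hα hβ hne) (hc2 α hα β hβ hne)
  -- symmetry under the swap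
  have sw : ∀ a b, χ ⟨b, a, false⟩ = χ ⟨a, b, false⟩ := by
    intro a b
    have := irr_class hχ ⟨a, b, false⟩ ⟨1, 1, true⟩
    simpa using this
  have e1 : ∀ α ∈ IrrC M, (∑ a, ∑ b, χ ⟨a, b, false⟩ * (α a⁻¹ * α b⁻¹) = 0) ∧
      (∑ a, ∑ b, χ ⟨a, b, true⟩ * α (b⁻¹ * a⁻¹) = 0) := by
    intro α hα
    have p := o1 α hα 1 (Or.inl rfl)
    have q := o1 α hα (-1) (Or.inr rfl)
    rw [Wr.sum_eq] at p q
    simp only [Wr.inv_tt, Wr.inv_ff, ext_t, ext_f, Finset.sum_add_distrib, one_mul, neg_mul,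
      mul_neg, Finset.sum_neg_distrib] at p q
    constructor
    · linear_combination (p + q) / 2
    · linear_combination (p - q) / 2
  have e2 : ∀ α ∈ IrrC M, ∀ β ∈ IrrC M, α ≠ β →
      ∑ a, ∑ b, χ ⟨a, b, false⟩ * (α a⁻¹ * β b⁻¹) = 0 := by
    intro α hα β hβ hne
    have p := o2 α hα β hβ hne
    rw [Wr.sum_eq] at p
    simp only [Wr.inv_tt, Wr.inv_ff, ind_t, ind_f, mul_zero, zero_add, mul_add,
      Finset.sum_add_distrib] at p
    have q : ∑ a, ∑ b, χ ⟨a, b, false⟩ * (β a⁻¹ * α b⁻¹) =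
        ∑ a, ∑ b, χ ⟨a, b, false⟩ * (α a⁻¹ * β b⁻¹) := by
      rw [Finset.sum_comm]
      apply Finset.sum_congr rfl
      intro a _
      apply Finset.sum_congr rfl
      intro b _
      rw [sw]; ring
    rw [q] at p
    linear_combination p / 2
  have z0 : ∀ a b, χ ⟨a, b, false⟩ = 0 := by
    apply prod_complete (fun a b => χ ⟨a, b, false⟩)
    · intro a b u
      have := irr_class hχ ⟨a, b, false⟩ ⟨u, 1, false⟩
      simpa using this
    · intro a b u
      have := irr_class hχ ⟨a, b, false⟩ ⟨1, u, false⟩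
      simpa using this
    · intro α hα β hβ
      by_cases h : α = β
      · subst h; exact (e1 α hα).1
      · exact e2 α hα β hβ h
  have h1 := irr_one_ne hχ
  exact h1 (z0 1 1)

end chars

end Pool.Agent.W367.SN
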